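import Mathlib

set_option autoImplicit false
set_option linter.unusedSectionVars false

namespace Pool.Agent.H250Z.SR

open Finset Function

/-- An abstract target hypergraph with the rigidity properties used by the drawing strategy.
Edges are indexed by `J ⊕ L`: the edges `inl j` avoid `z`, the `d` edges `inr l` contain it. -/
structure Design (d : ℕ) (V J L : Type) [Fintype V] [DecidableEq V] [Fintype J] [DecidableEq J]
    [Fintype L] [DecidableEq L] where
  k : ℕ
  E : J ⊕ L → Finset V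
  z : V
  v0 : V
  a : L
  b : L
  hd : 3 ≤ d
  hL : Fintype.card L = d
  hab : a ≠ b
  card_E : ∀ x, (E x).card = k
  E_inj : Injective E
  z_B : ∀ j, z ∉ E (.inl j)
  z_L : ∀ l, z ∈ E (.inr l)
  deg : ∀ v, v ≠ z → d + 2 ≤ (univ.filter fun j => v ∈ E (.inl j)).card
  v0_mem : ∀ x, v0 ∈ E x
  v0_ne : v0 ≠ z
  apex : ∀ v, v ≠ v0 → (univ.filter fun x => v ∈ E x).card + 2 ≤ Fintype.card J
  rigid : ∀ φ φ' : V → ℕ, Injective φ → Injective φ' →
    Fintype.card J ≤ (univ.filter fun x => ∃ x', (E x).image φ' = (E x').image φ).card →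
    ∀ j, (E (.inl j)).image φ' = (E (.inl j)).image φ
  satA : ∀ v v', (∀ j, v ∈ E (.inl j) ↔ v' ∈ E (.inl j)) →
    v ∈ (E (.inr a)).erase z → v' ∈ (E (.inr a)).erase z
  satB : ∀ v v', (∀ j, v ∈ E (.inl j) ↔ v' ∈ E (.inl j)) →
    v ∈ (E (.inr b)).erase z → v' ∈ (E (.inr b)).erase z
  G : Finset V
  z_G : z ∉ G
  satG : ∀ v v', (∀ j, v ∈ E (.inl j) ↔ v' ∈ E (.inl j)) → v ∈ G → v' ∈ G
  card_G : G.card ≤ k
  sub_G : ∀ l, l ≠ a → l ≠ b → (E (.inr l)).erase z ⊆ G
  card_ab : k < ((E (.inr a)).erase z ∪ (E (.inr b)).erase z).card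
  u : J → V
  u' : J → V
  u_self : ∀ j, u j ∈ E (.inl j) ↔ u' j ∉ E (.inl j)
  u_other : ∀ i j, i ≠ j → (u i ∈ E (.inl j) ↔ u' i ∈ E (.inl j))
  u_ne : ∀ i j, i ≠ j → u i ≠ u j ∧ u i ≠ u' j ∧ u' i ≠ u' j
  u_z : ∀ j, u j ≠ z ∧ u' j ≠ z
  c : Fin (2 * d) → Finset V
  c_inj : Injective c
  c_card : ∀ t, (c t).card = k
  c_z : ∀ t, z ∈ c t
  c_a : ∀ t, c t ≠ E (.inr a)
  c_b : ∀ t, c t ≠ E (.inr b)
  race : ∀ T : Finset (Fin (2 * d)), d ≤ T.card + 2 → ∃ σ : V → V, Injective σ ∧
    (∀ j, (E (.inl j)).image σ = E (.inl j)) ∧ (E (.inr a)).image σ = E (.inr a) ∧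
    (E (.inr b)).image σ = E (.inr b) ∧
    ∀ l, l ≠ a → l ≠ b → ∃ t ∈ T, (E (.inr l)).image σ = c t

variable {d : ℕ} {V J L : Type} [Fintype V] [DecidableEq V] [Fintype J] [DecidableEq J]
    [Fintype L] [DecidableEq L]

lemma exists_fresh (V : Type) [Fintype V] (U : Finset ℕ) :
    ∃ φ : V → ℕ, Injective φ ∧ ∀ v, φ v ∉ U := by
  refine ⟨fun v => U.sup id + 1 + (Fintype.equivFin V v : ℕ), ?_, ?_⟩
  · intro v w h
    have : (Fintype.equivFin V v : ℕ) = Fintype.equivFin V w := by simpa using h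
    exact (Fintype.equivFin V).injective (Fin.ext this)
  · intro v hv
    have := Finset.le_sup (f := id) hv
    simp only [id] at this
    omega

namespace Design

variable (D : Design d V J L)

/-- image of an edge -/
def im (φ : V → ℕ) (x : J ⊕ L) : Finset ℕ := (D.E x).image φ

/-- a link set -/
def lk (l : L) : Finset V := (D.E (.inr l)).erase D.z

/-- number of missing edges -/
def miss (φ : V → ℕ) (F : Finset (Finset ℕ)) : ℕ := (univ.filter fun x => D.im φ x ∉ F).card

/-- every unblocked copy misses at least `r` edges -/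
def Tau (F S : Finset (Finset ℕ)) (r : ℕ) : Prop :=
  ∀ φ : V → ℕ, Injective φ → (∀ x, D.im φ x ∉ S) → r ≤ D.miss φ F

def HasCopy (F : Finset (Finset ℕ)) : Prop := ∃ φ : V → ℕ, Injective φ ∧ ∀ x, D.im φ x ∈ F

def Same (φ φ' : V → ℕ) : Prop := ∀ j, D.im φ' (.inl j) = D.im φ (.inl j)

variable {D}

lemma im_inj {φ : V → ℕ} (h : Injective φ) : Injective (D.im φ) := by
  intro x y hxy
  exact D.E_inj (Finset.image_injective h hxy)

lemma card_im {φ : V → ℕ} (h : Injective φ) (x : J ⊕ L) : (D.im φ x).card = D.k := by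
  rw [im, card_image_of_injective _ h, D.card_E]

lemma mem_im {φ : V → ℕ} (h : Injective φ) {x : J ⊕ L} {v : V} : φ v ∈ D.im φ x ↔ v ∈ D.E x := by
  simp [im, h.eq_iff]

lemma im_link (φ : V → ℕ) (l : L) : D.im φ (.inr l) = insert (φ D.z) ((D.lk l).image φ) := by
  rw [im, lk, ← image_insert, insert_erase (D.z_L l)]

lemma z_not_lk (l : L) : D.z ∉ D.lk l := by simp [lk]

lemma im_link_erase {φ : V → ℕ} (h : Injective φ) (l : L) :
    (D.im φ (.inr l)).erase (φ D.z) = (D.lk l).image φ := by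
  rw [im_link, erase_insert]
  simp [h.eq_iff, z_not_lk]

lemma present_add_miss (φ : V → ℕ) (F : Finset (Finset ℕ)) :
    (univ.filter fun x => D.im φ x ∈ F).card + D.miss φ F = Fintype.card J + d := by
  rw [miss, card_filter_add_card_filter_not, card_univ, Fintype.card_sum, D.hL]

lemma present_le {φ : V → ℕ} (h : Injective φ) (F : Finset (Finset ℕ)) :
    (univ.filter fun x => D.im φ x ∈ F).card ≤ F.card := by
  apply card_le_card_of_injOn (D.im φ)
  · intro x hx; simpa using hx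
  · exact (im_inj h).injOn

lemma miss_insert {φ : V → ℕ} (h : Injective φ) (e : Finset ℕ) (F : Finset (Finset ℕ)) :
    D.miss φ F ≤ D.miss φ (insert e F) + 1 := by
  have h1 : (univ.filter fun x => D.im φ x = e).card ≤ 1 := by
    rw [card_le_one]
    intro x hx y hy
    simp only [mem_filter, mem_univ, true_and] at hx hy
    exact im_inj h (hx.trans hy.symm)
  have h2 : (univ.filter fun x => D.im φ x ∉ F) ⊆
      (univ.filter fun x => D.im φ x ∉ insert e F) ∪ (univ.filter fun x => D.im φ x = e) := by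
    intro x hx
    simp only [mem_filter, mem_univ, true_and, mem_union, mem_insert, not_or] at hx ⊢
    tauto
  have := (card_le_card h2).trans (card_union_le _ _)
  unfold miss
  omega

lemma Tau.insert_left {F S : Finset (Finset ℕ)} {r : ℕ} (h : D.Tau F S (r + 1)) (e : Finset ℕ) :
    D.Tau (insert e F) S r := by
  intro φ hφ hS
  have := h φ hφ hS
  have := miss_insert (D := D) hφ e F
  omega

lemma Tau.mono_right {F S S' : Finset (Finset ℕ)} {r : ℕ} (h : D.Tau F S r) (hS : S ⊆ S') :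
    D.Tau F S' r := fun φ hφ hφS => h φ hφ fun x hx => hφS x (hS hx)

lemma Tau.no_copy {F S : Finset (Finset ℕ)} {r : ℕ} (h : D.Tau F S r) (hr : 1 ≤ r)
    (hd : Disjoint F S) : ¬ D.HasCopy F := by
  rintro ⟨φ, hφ, hF⟩
  have := h φ hφ fun x hx => disjoint_left.mp hd (hF x) hx
  have h0 : D.miss φ F = 0 := by
    simp [miss, hF]
  omega

lemma card_J (D : Design d V J L) : d + 2 ≤ Fintype.card J := by
  have := D.deg D.v0 D.v0_ne
  exact this.trans (card_le_univ _)

lemma exists_B {v : V} (hv : v ≠ D.z) : ∃ j, v ∈ D.E (.inl j) := by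
  have := D.deg v hv
  obtain ⟨j, hj⟩ := card_pos.mp (lt_of_lt_of_le (by omega) this)
  exact ⟨j, by simpa using hj⟩

lemma sat_image_sub {φ φ' : V → ℕ} (h : Injective φ) (h' : Injective φ') (hs : D.Same φ φ')
    {X : Finset V} (hz : D.z ∉ X)
    (hX : ∀ v v', (∀ j, v ∈ D.E (.inl j) ↔ v' ∈ D.E (.inl j)) → v ∈ X → v' ∈ X) :
    X.image φ' ⊆ X.image φ := by
  intro n hn
  obtain ⟨v, hv, rfl⟩ := mem_image.mp hn
  have hvz : v ≠ D.z := fun h => hz (h ▸ hv)
  obtain ⟨j, hj⟩ := exists_B hvz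
  have h1 : φ' v ∈ D.im φ (.inl j) := by rw [← hs j]; exact (mem_im h').mpr hj
  obtain ⟨v', -, hv'⟩ := mem_image.mp h1
  refine mem_image.mpr ⟨v', hX v v' (fun i => ?_) hv, hv'⟩
  rw [← mem_im h' (x := .inl i), hs i, ← hv', mem_im h]

lemma sat_image {φ φ' : V → ℕ} (h : Injective φ) (h' : Injective φ') (hs : D.Same φ φ')
    {X : Finset V} (hz : D.z ∉ X)
    (hX : ∀ v v', (∀ j, v ∈ D.E (.inl j) ↔ v' ∈ D.E (.inl j)) → v ∈ X → v' ∈ X) :
    X.image φ' = X.image φ :=
  subset_antisymm (sat_image_sub h h' hs hz hX) (sat_image_sub h' h (fun j => (hs j).symm) hz hX)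

lemma lk_ab_image {φ φ' : V → ℕ} (h : Injective φ) (h' : Injective φ') (hs : D.Same φ φ')
    {y : L} (hy : y = D.a ∨ y = D.b) : (D.lk y).image φ' = (D.lk y).image φ := by
  rcases hy with rfl | rfl
  · exact sat_image h h' hs (z_not_lk _) D.satA
  · exact sat_image h h' hs (z_not_lk _) D.satB

lemma apex_eq {φ φ' : V → ℕ} (h : Injective φ) (h' : Injective φ')
    (hc : Fintype.card J ≤ (univ.filter fun j => ∃ x, D.im φ' (.inl j) = D.im φ x).card + 1) :
    φ' D.v0 = φ D.v0 := by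
  classical
  set Y := univ.filter fun j => ∃ x, D.im φ' (.inl j) = D.im φ x with hY
  have hJ := card_J D
  obtain ⟨j0, hj0⟩ : Y.Nonempty := card_pos.mp (by omega)
  have hch : ∀ j, ∃ x, j ∈ Y → D.im φ' (.inl j) = D.im φ x := by
    intro j
    by_cases hj : j ∈ Y
    · obtain ⟨x, hx⟩ := (mem_filter.mp hj).2
      exact ⟨x, fun _ => hx⟩
    · exact ⟨.inl j, fun h => absurd h hj⟩
  choose ρ hρ using hch
  have h1 : φ' D.v0 ∈ D.im φ (ρ j0) := by rw [← hρ j0 hj0]; exact (mem_im h').mpr (D.v0_mem _)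
  obtain ⟨v, -, hv⟩ := mem_image.mp h1
  by_contra hne
  have hv0 : v ≠ D.v0 := fun h => hne (by rw [← hv, h])
  have h2 := D.apex v hv0
  have h3 : Y.card ≤ (univ.filter fun x => v ∈ D.E x).card := by
    apply card_le_card_of_injOn ρ
    · intro j hj
      simp only [coe_filter, mem_univ, true_and, Set.mem_setOf_eq]
      rw [← mem_im h, hv, ← hρ j hj]
      exact (mem_im h').mpr (D.v0_mem _)
    · intro i hi j hj hij
      have : D.im φ' (.inl i) = D.im φ' (.inl j) := by rw [hρ i hi, hρ j hj, hij]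
      exact Sum.inl_injective (im_inj h' this)
  omega

lemma Same.apex_eq {φ φ' : V → ℕ} (h : Injective φ) (h' : Injective φ') (hs : D.Same φ φ') :
    φ' D.v0 = φ D.v0 := by
  apply Design.apex_eq h h'
  have : (univ.filter fun j => ∃ x, D.im φ' (.inl j) = D.im φ x) = univ := by
    ext j; simp only [mem_filter, mem_univ, true_and, iff_true]; exact ⟨_, hs j⟩
  rw [this, card_univ]; omega

/-- alternative edge -/
def E' (D : Design d V J L) (j : J) : Finset V := (D.E (.inl j)).image (Equiv.swap (D.u j) (D.u' j))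

lemma mem_E' {j : J} {v : V} : v ∈ D.E' j ↔ Equiv.swap (D.u j) (D.u' j) v ∈ D.E (.inl j) := by
  rw [E', mem_image]
  constructor
  · rintro ⟨w, hw, rfl⟩; simpa using hw
  · intro h; exact ⟨_, h, by simp⟩

lemma card_E' (j : J) : (D.E' j).card = D.k := by
  rw [E', card_image_of_injective _ (Equiv.injective _), D.card_E]

lemma u_mem_E'_self (j : J) : D.u j ∈ D.E' j ↔ D.u' j ∈ D.E (.inl j) := by simp [mem_E']

lemma u'_mem_E'_self (j : J) : D.u' j ∈ D.E' j ↔ D.u j ∈ D.E (.inl j) := by simp [mem_E']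

lemma u_mem_E'_other {i j : J} (h : i ≠ j) : D.u i ∈ D.E' j ↔ D.u i ∈ D.E (.inl j) := by
  rw [mem_E', Equiv.swap_apply_of_ne_of_ne (D.u_ne i j h).1 (D.u_ne i j h).2.1]

lemma u'_mem_E'_other {i j : J} (h : i ≠ j) : D.u' i ∈ D.E' j ↔ D.u' i ∈ D.E (.inl j) := by
  rw [mem_E', Equiv.swap_apply_of_ne_of_ne (D.u_ne j i h.symm).2.1.symm (D.u_ne i j h).2.2]

/-- the two options for the edge `j` -/
def opt (D : Design d V J L) (j : J) (β : Bool) : Finset V := if β then D.E' j else D.E (.inl j)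

lemma card_opt (j : J) (β : Bool) : (D.opt j β).card = D.k := by
  cases β <;> simp [opt, card_E', D.card_E]

lemma opt_split (j : J) (β : Bool) : D.u j ∈ D.opt j β ↔ D.u' j ∉ D.opt j β := by
  have := D.u_self j
  cases β
  · simpa [opt] using this
  · simp only [opt, if_true, u_mem_E'_self, u'_mem_E'_self]; tauto

lemma opt_nosplit {i j : J} (h : i ≠ j) (β : Bool) : D.u i ∈ D.opt j β ↔ D.u' i ∈ D.opt j β := by
  have := D.u_other i j h
  cases β
  · simpa [opt] using this
  · simp only [opt, if_true, u_mem_E'_other h, u'_mem_E'_other h]; exact this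

lemma opt_inj {i j : J} {β γ : Bool} (h : D.opt i β = D.opt j γ) : i = j ∧ β = γ := by
  have hij : i = j := by
    by_contra hne
    have h1 := opt_split (D := D) i β
    have h2 := opt_nosplit (D := D) hne γ
    rw [h] at h1
    tauto
  subst hij
  refine ⟨rfl, ?_⟩
  by_contra hne
  have h1 : D.E' i = D.E (.inl i) := by
    cases β <;> cases γ <;> simp_all [opt]
  have h2 := u_mem_E'_self (D := D) i
  have h3 := D.u_self i
  rw [h1] at h2
  tauto

lemma v0_or (j : J) (β : Bool) : (D.opt j β).Nonempty := by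
  rw [← card_pos, card_opt, ← D.card_E (.inl j), card_pos]
  exact ⟨_, D.v0_mem _⟩

lemma image_swap_of_iff {X : Finset V} {p q : V} (h : p ∈ X ↔ q ∈ X) :
    X.image (Equiv.swap p q) = X := by
  ext v
  rw [mem_image]
  have key : ∀ w, Equiv.swap p q w ∈ X ↔ w ∈ X := by
    intro w
    rcases eq_or_ne w p with rfl | hp
    · simp [h]
    rcases eq_or_ne w q with rfl | hq
    · simp [h]
    rw [Equiv.swap_apply_of_ne_of_ne hp hq]
  constructor
  · rintro ⟨w, hw, rfl⟩; exact (key w).mpr hw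
  · intro hv; exact ⟨Equiv.swap p q v, (key v).mpr hv, by simp⟩

lemma exists_perm (T : Finset J) : ∃ σ : Equiv.Perm V, σ D.z = D.z ∧
    ∀ j, (D.E (.inl j)).image σ = D.opt j (decide (j ∈ T)) := by
  induction T using Finset.induction_on with
  | empty => exact ⟨1, rfl, fun j => by simp [opt]⟩
  | insert i T hi ih =>
    obtain ⟨σ, hz, hσ⟩ := ih
    refine ⟨Equiv.swap (D.u i) (D.u' i) * σ, ?_, fun j => ?_⟩
    · rw [Equiv.Perm.mul_apply, hz, Equiv.swap_apply_of_ne_of_ne (D.u_z i).1.symm (D.u_z i).2.symm]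
    · rw [Equiv.Perm.coe_mul, ← image_image, hσ]
      rcases eq_or_ne j i with rfl | hne
      · simp [hi, opt, E']
      · rw [image_swap_of_iff (opt_nosplit hne.symm _)]
        simp [hne]

end Design

end Pool.Agent.H250Z.SR
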