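import Pool.Agent.H250Z.SR.Inst

set_option autoImplicit false
set_option linter.unusedSectionVars false

namespace Pool.Agent.H250Z.SR.Inst

open Finset Function

lemma transfer {W I : Type} [Fintype W] [DecidableEq W] [Fintype I] [DecidableEq I]
    (E : I → Finset W) (hE : Injective E) (z : W) {φ φ' : W → ℕ} (hφ : Injective φ)
    (hφ' : Injective φ') (Y : Finset I) (hY : ∀ x ∈ Y, ∃ x', (E x).image φ' = (E x').image φ)
    (hcov : ∀ v, v ≠ z → (univ.filter fun x => z ∈ E x).card < (Y.filter fun x => v ∈ E x).card) :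
    ∃ (ρ : I → I) (π : Equiv.Perm W), π z = z ∧ (∀ v, v ≠ z → φ (π v) = φ' v) ∧
      Set.InjOn ρ Y ∧ ∀ x ∈ Y, ∀ v, v ≠ z → (v ∈ E x ↔ π v ∈ E (ρ x)) := by
  have hch : ∀ x, ∃ x', x ∈ Y → (E x).image φ' = (E x').image φ := by
    intro x
    by_cases hx : x ∈ Y
    · obtain ⟨x', h⟩ := hY x hx
      exact ⟨x', fun _ => h⟩
    · exact ⟨x, fun h => absurd h hx⟩
  choose ρ hρ using hch
  have hρi : Set.InjOn ρ Y := by
    intro x hx y hy h
    apply hE
    apply image_injective hφ'
    rw [hρ x hx, hρ y hy, h]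
  have hch2 : ∀ v, ∃ w, (v = z → w = z) ∧ (v ≠ z → φ w = φ' v) := by
    intro v
    by_cases hv : v = z
    · exact ⟨z, fun _ => rfl, fun h => absurd hv h⟩
    · obtain ⟨x, hx⟩ := card_pos.mp (lt_of_le_of_lt (Nat.zero_le _) (hcov v hv))
      rw [mem_filter] at hx
      have : φ' v ∈ (E (ρ x)).image φ := by rw [← hρ x hx.1]; exact mem_image_of_mem _ hx.2
      obtain ⟨w, -, hw⟩ := mem_image.mp this
      exact ⟨w, fun h => absurd h hv, fun _ => hw⟩
  choose π hπz hπ using hch2
  have hmem : ∀ x ∈ Y, ∀ v, v ≠ z → (v ∈ E x ↔ π v ∈ E (ρ x)) := by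
    intro x hx v hv
    have h1 : v ∈ E x ↔ φ' v ∈ (E x).image φ' := by simp [hφ'.eq_iff]
    have h2 : π v ∈ E (ρ x) ↔ φ (π v) ∈ (E (ρ x)).image φ := by simp [hφ.eq_iff]
    rw [h1, h2, hρ x hx, hπ v hv]
  have hne : ∀ v, v ≠ z → π v ≠ z := by
    intro v hv h
    have h1 := hcov v hv
    have h2 : (Y.filter fun x => v ∈ E x).card ≤ (univ.filter fun x => z ∈ E x).card := by
      apply card_le_card_of_injOn ρ
      · intro x hx
        simp only [coe_filter, Set.mem_setOf_eq, mem_univ, true_and] at hx ⊢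
        rw [← h]; exact (hmem x hx.1 v hv).mp hx.2
      · exact hρi.mono (by intro x hx; simp only [coe_filter] at hx; exact hx.1)
    omega
  have hinj : Injective π := by
    intro v w h
    by_cases hv : v = z <;> by_cases hw : w = z
    · rw [hv, hw]
    · exact absurd (h ▸ hπz v hv) (hne w hw)
    · exact absurd (h ▸ hπz w hw) (hne v hv)
    · apply hφ'; rw [← hπ v hv, ← hπ w hw, h]
  exact ⟨ρ, Equiv.ofBijective π (Finite.injective_iff_bijective.mp hinj), hπz z rfl, hπ, hρi,
    hmem⟩

lemma dist_le {I : Type} [Fintype I] [DecidableEq I] (Y : Finset I) (ρ : I → I)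
    (hρ : Set.InjOn ρ Y) (Q Q' : I → Prop) [DecidablePred Q] [DecidablePred Q']
    (h : ∀ x ∈ Y, Q x ↔ Q' (ρ x)) :
    (univ.filter Q).card + Y.card ≤ (univ.filter Q').card + Fintype.card I ∧
    (univ.filter Q').card + Y.card ≤ (univ.filter Q).card + Fintype.card I := by
  have hinj : Set.InjOn ρ (Y.filter Q) :=
    hρ.mono (by intro x hx; simp only [coe_filter] at hx; exact hx.1)
  constructor
  · have h1 : univ.filter Q ⊆ Y.filter Q ∪ Yᶜ := by
      intro x hx
      simp only [mem_filter, mem_univ, true_and, mem_union, mem_compl] at hx ⊢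
      tauto
    have h2 : (Y.filter Q).card ≤ (univ.filter Q').card := by
      apply card_le_card_of_injOn ρ _ hinj
      intro x hx
      simp only [coe_filter, Set.mem_setOf_eq, mem_univ, true_and] at hx ⊢
      exact (h x hx.1).mp hx.2
    have h3 := (card_le_card h1).trans (card_union_le _ _)
    have h4 := card_add_card_compl Y
    omega
  · have h1 : univ.filter Q' ⊆ (Y.filter Q).image ρ ∪ (Y.image ρ)ᶜ := by
      intro x hx
      simp only [mem_filter, mem_univ, true_and, mem_union, mem_compl] at hx ⊢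
      by_cases hx' : x ∈ Y.image ρ
      · obtain ⟨y, hy, rfl⟩ := mem_image.mp hx'
        exact Or.inl (mem_image_of_mem _ (mem_filter.mpr ⟨hy, (h y hy).mpr hx⟩))
      · exact Or.inr hx'
    have h2 : ((Y.filter Q).image ρ).card ≤ (univ.filter Q).card :=
      card_image_le.trans (card_le_card (filter_subset_filter _ (subset_univ _)))
    have h3 := (card_le_card h1).trans (card_union_le _ _)
    have h4 := card_add_card_compl (Y.image ρ)
    rw [card_image_of_injOn hρ] at h4
    omega

variable {d : ℕ} {J : Type} [Fintype J] [DecidableEq J]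
variable {Gp : Type} [DecidableEq Gp] {grp : J → Gp} {base : K J → Gp → Bool}
variable (hgrp : ∀ γ, 2 * d + 4 ≤ (univ.filter fun j => grp j = γ).card)
  (hbase : ∀ γ, base (.inr none) γ = true)
  (hsep : ∀ c c' : K J × Bool, c ≠ c' → ∃ γ, (c.2 = base c.1 γ) ≠ (c'.2 = base c'.1 γ))

include hgrp hbase hsep in
theorem rigid (hd : 3 ≤ d) (φ φ' : V d J → ℕ) (hφ : Injective φ) (hφ' : Injective φ')
    (hc : Fintype.card J ≤ (univ.filter fun x => ∃ x',
      (E grp base x).image φ' = (E grp base x').image φ).card) (j : J) :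
    (E grp base (.inl j)).image φ' = (E grp base (.inl j)).image φ := by
  set Y := univ.filter fun x => ∃ x', (E grp base x).image φ' = (E grp base x').image φ with hY
  have hI : Fintype.card (J ⊕ L d) = Fintype.card J + d := by rw [Fintype.card_sum, card_L hd]
  have hzdeg : (univ.filter fun x => z d J ∈ E grp base x).card ≤ d := by
    rw [card_split]
    have : (univ.filter fun l : L d => z d J ∈ E grp base (.inr l)).card ≤ d :=
      (card_le_univ _).trans (card_L hd).le
    simpa [z_B hbase] using this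
  obtain ⟨ρ, π, hπz, hπ, hρ, hmem⟩ := transfer (E grp base) (E_inj hbase hd) (z d J) hφ hφ' Y
    (fun x hx => (mem_filter.mp hx).2) (by
      intro v hv
      have h1 := deg hgrp hbase hsep hv
      have h2 := card_split (fun x => v ∈ E grp base x)
      have h3 : (univ.filter fun x => v ∈ E grp base x) ⊆
          (Y.filter fun x => v ∈ E grp base x) ∪ Yᶜ := by
        intro x hx
        simp only [mem_filter, mem_univ, true_and, mem_union, mem_compl] at hx ⊢
        tauto
      have h4 := (card_le_card h3).trans (card_union_le _ _)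
      have h5 := card_add_card_compl Y
      omega)
  have hπne : ∀ v, v ≠ z d J → π v ≠ z d J := fun v hv h => hv (π.injective (h.trans hπz.symm))
  have hnear : ∀ v v' : V d J, cl v = cl v' → (univ.filter fun x =>
      ¬ (v ∈ E grp base x ↔ v' ∈ E grp base x)).card ≤ d + 1 := by
    intro v v' h
    rw [card_split]
    have h1 := near (grp := grp) (base := base) h
    have h2 : (univ.filter fun l : L d =>
        ¬ (v ∈ E grp base (.inr l) ↔ v' ∈ E grp base (.inr l))).card ≤ d :=
      (card_le_univ _).trans (card_L hd).le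
    omega
  have hfar : ∀ v v' : V d J, cl v ≠ cl v' → 2 * d + 2 ≤ (univ.filter fun x =>
      ¬ (v ∈ E grp base x ↔ v' ∈ E grp base x)).card := by
    intro v v' h
    rw [card_split]
    have h1 := far hgrp hsep h
    omega
  have hcl : ∀ v v' : V d J, cl v = cl v' ↔ cl (π v) = cl (π v') := by
    intro v v'
    by_cases hv : v = z d J
    · subst hv
      rw [hπz]
      constructor
      · intro h; rw [cl_z h.symm, hπz]
      · intro h; rw [π.injective ((cl_z h.symm).trans hπz.symm)]
    by_cases hv' : v' = z d J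
    · subst hv'
      rw [hπz]
      exact ⟨fun h => absurd (cl_z h) hv, fun h => absurd (cl_z h) (hπne v hv)⟩
    have h1 := dist_le Y ρ hρ (fun x => ¬ (v ∈ E grp base x ↔ v' ∈ E grp base x))
      (fun x => ¬ (π v ∈ E grp base x ↔ π v' ∈ E grp base x))
      (fun x hx => by rw [hmem x hx v hv, hmem x hx v' hv'])
    constructor
    · intro h
      by_contra hne
      have := hnear _ _ h
      have := hfar _ _ hne
      omega
    · intro h
      by_contra hne
      have := hnear _ _ h
      have := hfar _ _ hne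
      omega
  have hmu : ∀ v : V d J, mu d J (π v).1.1.1 = mu d J v.1.1.1 := by
    intro v
    rw [← card_cl, ← card_cl]
    symm
    apply card_bij (fun v' _ => π v')
    · intro a ha
      simp only [mem_filter, mem_univ, true_and] at ha ⊢
      exact (hcl _ _).mp ha
    · intro a _ b _ h; exact π.injective h
    · intro b hb
      simp only [mem_filter, mem_univ, true_and] at hb ⊢
      refine ⟨π.symm b, ?_, by simp⟩
      rw [hcl]; simpa using hb
  have hκ : ∀ (v : V d J) (i : J), v.1.1.1 = .inl i ↔ (π v).1.1.1 = .inl i := by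
    intro v i
    constructor
    · intro h; apply mu_inj (d := d); rw [hmu, h]
    · intro h; apply mu_inj (d := d); rw [← hmu, h]
  have hnz : ∀ (v : V d J) (i : J), v.1.1.1 = .inl i → v ≠ z d J := by
    rintro v i h rfl; simp [z, p0] at h
  have hsp : ∀ x ∈ Y, ∀ i : J, (x = .inl i ∨ ∃ l, x = .inr l) ↔
      (ρ x = .inl i ∨ ∃ l, ρ x = .inr l) := by
    intro x hx i
    rw [← split_iff (grp := grp) (base := base), ← split_iff (grp := grp) (base := base)]
    constructor
    · rintro ⟨v, v', h1, h2, h3, h4⟩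
      have h1' : v'.1.1.1 = .inl i := (Prod.ext_iff.mp h2).1.symm.trans h1
      exact ⟨π v, π v', (hκ _ _).mp h1, (hcl _ _).mp h2, (hmem x hx v (hnz v i h1)).mp h3,
        fun h => h4 ((hmem x hx v' (hnz v' i h1')).mpr h)⟩
    · rintro ⟨w, w', h1, h2, h3, h4⟩
      obtain ⟨v, rfl⟩ := π.surjective w
      obtain ⟨v', rfl⟩ := π.surjective w'
      have h5 := (hκ _ _).mpr h1
      have h6 := (hcl _ _).mpr h2
      have h1' : v'.1.1.1 = .inl i := (Prod.ext_iff.mp h6).1.symm.trans h5
      exact ⟨v, v', h5, h6, (hmem x hx v (hnz v i h5)).mpr h3,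
        fun h => h4 ((hmem x hx v' (hnz v' i h1')).mp h)⟩
  have hJ2 : 1 < Fintype.card J := by
    have h1 := deg hgrp hbase hsep (v := v0 d J) (by simp [v0, z])
    have h2 := card_le_univ (univ.filter fun j => v0 d J ∈ E grp base (.inl j))
    omega
  have hρB : ∀ i : J, Sum.inl i ∈ Y → ρ (.inl i) = .inl i := by
    intro i hi
    obtain ⟨i', hi'⟩ := Fintype.exists_ne_of_one_lt_card hJ2 i
    rcases (hsp _ hi i).mp (Or.inl rfl) with h | h
    · exact h
    · have := (hsp _ hi i').mpr (Or.inr h)
      simp [hi'.symm] at this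
  have hρL : ∀ l : L d, Sum.inr l ∈ Y → ∃ l', ρ (.inr l) = .inr l' := by
    intro l hl
    obtain ⟨i', hi'⟩ := Fintype.exists_ne_of_one_lt_card hJ2 j
    rcases (hsp _ hl j).mp (Or.inr ⟨l, rfl⟩) with h | h
    · rcases (hsp _ hl i').mp (Or.inr ⟨l, rfl⟩) with h' | h'
      · exact absurd (Sum.inl_injective (h'.symm.trans h)) hi'
      · exact h'
    · exact h
  have hfix : ∀ v, v ≠ z d J → (v ∈ E grp base (.inl j) ↔ π v ∈ E grp base (.inl j)) := by
    intro v hv
    by_cases hj : Sum.inl j ∈ Y
    · rw [hmem _ hj v hv, hρB j hj]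
    have hl : ∃ l, Sum.inr l ∈ Y := by
      by_contra hn
      push Not at hn
      have h1 : Y ⊆ (univ.erase j).image Sum.inl := by
        rintro (i | l) hx
        · exact mem_image_of_mem _ (mem_erase.mpr ⟨fun h => hj (h ▸ hx), mem_univ _⟩)
        · exact absurd hx (hn l)
      have h2 := (card_le_card h1).trans card_image_le
      rw [card_erase_of_mem (mem_univ _), card_univ] at h2
      omega
    obtain ⟨l, hl⟩ := hl
    obtain ⟨l', hl'⟩ := hρL l hl
    have hclv : cl v = cl (π v) := by
      by_contra hne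
      have h1 := far hgrp hsep hne
      have h2 : (univ.filter fun i => ¬ (v ∈ E grp base (.inl i) ↔
          π v ∈ E grp base (.inl i))).card ≤ Yᶜ.card := by
        apply card_le_card_of_injOn Sum.inl _ Sum.inl_injective.injOn
        intro i hi
        simp only [coe_filter, Set.mem_setOf_eq, mem_univ, true_and, coe_compl,
          Set.mem_compl_iff, mem_coe] at hi ⊢
        intro hY'
        exact hi (by rw [hmem _ hY' v hv, hρB i hY'])
      have h5 := card_add_card_compl Y
      omega
    simp only [cl, Prod.mk.injEq] at hclv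
    rw [mem_EB, mem_EB, hB, hB, ← hclv.1, ← hclv.2]
    by_cases hvj : v.1.1.1 = .inl j
    · have h1 := hmem _ hl v hv
      rw [hl', mem_EL_inl hvj, mem_EL_inl ((hκ _ _).mp hvj), ← hclv.2] at h1
      have h2 : v.1.1.2 = 0 ↔ (π v).1.1.2 = 0 := by
        revert h1
        cases v.2 <;> simp [not_iff_not]
      simp [h2]
    · simp [hvj]
  ext n
  simp only [mem_image]
  constructor
  · rintro ⟨v, hv, rfl⟩
    have hvz : v ≠ z d J := fun h => z_B hbase j (h ▸ hv)
    exact ⟨π v, (hfix v hvz).mp hv, hπ v hvz⟩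
  · rintro ⟨w, hw, rfl⟩
    obtain ⟨v, rfl⟩ := π.surjective w
    have hvz : v ≠ z d J := by
      rintro rfl
      rw [hπz] at hw
      exact z_B hbase j hw
    exact ⟨v, (hfix v hvz).mpr hw, (hπ v hvz).symm⟩

end Pool.Agent.H250Z.SR.Inst
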