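import Pool.Agent.H250Z.SR.Game
import Pool.Agent.H250Z.SR.Rigid

set_option autoImplicit false
set_option linter.unusedSectionVars false

namespace Pool.Agent.H250Z.SR.Inst

open Finset Function

variable {d : ℕ} {J : Type} [Fintype J] [DecidableEq J]
variable {Gp : Type} [DecidableEq Gp] {grp : J → Gp} {base : K J → Gp → Bool}

lemma h1_congr {v v' : V d J} (h : cl v = cl v')
    (h' : ∀ j, v.1.1.1 = .inl j → (v.1.1.2 = 0 ↔ v'.1.1.2 = 0)) : h1 v.1 = h1 v'.1 := by
  have h3 : v.1.1.1 = v'.1.1.1 := (Prod.ext_iff.mp h).1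
  unfold h1
  rw [← h3]
  rcases hk : v.1.1.1 with j | o
  · simp [h' j hk]
  · rfl

lemma h2_congr {v v' : V d J} (h : cl v = cl v')
    (h' : ∀ j, v.1.1.1 = .inl j → (v.1.1.2 = 0 ↔ v'.1.1.2 = 0)) : h2 v.1 = h2 v'.1 := by
  have h3 : v.1.1.1 = v'.1.1.1 := (Prod.ext_iff.mp h).1
  unfold h2
  rw [← h3]
  rcases hk : v.1.1.1 with j | _ | _ | _
  · simp [h' j hk]
  all_goals rfl

lemma sat_Lk {h : P d J → Bool} {v v' : V d J} (hc : cl v = cl v') (hh : h v.1 = h v'.1)
    (hv : v ∈ (Lk h (py d J)).erase (z d J)) : v' ∈ (Lk h (py d J)).erase (z d J) := by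
  rw [mem_erase, mem_Lk] at hv ⊢
  obtain ⟨h1, h2⟩ := hv
  obtain ⟨h3, h4⟩ := h2.resolve_left h1
  refine ⟨fun h => h1 (cl_z (h ▸ hc)), Or.inr ⟨fun h => h3 (cl_py ?_), ?_⟩⟩
  · rw [show v.1.1.1 = v'.1.1.1 from (Prod.ext_iff.mp hc).1, h]; rfl
  · rw [← hh, ← h4]; exact (Prod.ext_iff.mp hc).2.symm

/-- the special class -/
def wE (d : ℕ) (J : Type) [Fintype J] [DecidableEq J] : Fin (2 * d) ↪ V d J :=
  ⟨fun t => (pW d J t, true), fun _ _ h => pW_inj (Prod.ext_iff.mp h).1⟩

lemma image_via (τ : Equiv.Perm (Fin (2 * d))) {X : Finset (V d J)}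
    (h : ∀ s t, wE d J s ∈ X ↔ wE d J t ∈ X) : X.image (τ.viaEmbedding (wE d J)) = X := by
  apply eq_of_subset_of_card_le
  · intro v hv
    obtain ⟨w, hw, rfl⟩ := mem_image.mp hv
    by_cases hr : w ∈ Set.range (wE d J)
    · obtain ⟨t, rfl⟩ := hr
      rw [Equiv.Perm.viaEmbedding_apply]
      exact (h _ _).mp hw
    · rw [Equiv.Perm.viaEmbedding_apply_of_notMem _ _ _ hr]; exact hw
  · rw [card_image_of_injective _ (Equiv.injective _)]

lemma wE_ne_z (t : Fin (2 * d)) : wE d J t ≠ z d J := fun h => pW_ne_p0 t (Prod.ext_iff.mp h).1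

/-- the design -/
noncomputable def design (hd : 3 ≤ d)
    (hgrp : ∀ γ, 2 * d + 4 ≤ (univ.filter fun j => grp j = γ).card)
    (hbase : ∀ γ, base (.inr none) γ = true)
    (hsep : ∀ c c' : K J × Bool, c ≠ c' → ∃ γ, (c.2 = base c.1 γ) ≠ (c'.2 = base c'.1 γ)) :
    Design d (V d J) J (L d) where
  k := Fintype.card (P d J)
  E := E grp base
  z := z d J
  v0 := v0 d J
  a := .inl true
  b := .inl false
  hd := hd
  hL := card_L hd
  hab := by simp
  card_E := card_E
  E_inj := E_inj hbase hd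
  z_B := z_B hbase
  z_L := z_L
  deg := fun v hv => le_trans (by omega) (deg hgrp hbase hsep hv)
  v0_mem := v0_mem hbase
  v0_ne := by simp [v0, z]
  apex := fun v hv => apex hgrp hbase hsep hd hv
  rigid := rigid hgrp hbase hsep hd
  satA := fun v v' h hv =>
    sat_Lk (cl_of_same hgrp hsep h).1
      (h1_congr (cl_of_same hgrp hsep h).1 (cl_of_same hgrp hsep h).2) hv
  satB := fun v v' h hv =>
    sat_Lk (cl_of_same hgrp hsep h).1
      (h2_congr (cl_of_same hgrp hsep h).1 (cl_of_same hgrp hsep h).2) hv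
  G := gr h1
  z_G := by simp [mem_gr, z, h1, p0]
  satG := fun v v' h hv => by
    rw [mem_gr] at hv ⊢
    rw [← h1_congr (cl_of_same hgrp hsep h).1 (cl_of_same hgrp hsep h).2, ← hv]
    exact (Prod.ext_iff.mp (cl_of_same hgrp hsep h).1).2.symm
  card_G := (card_gr _).le
  sub_G := by
    rintro ((_ | _) | i) ha hb v hv
    · exact absurd rfl hb
    · exact absurd rfl ha
    · rw [mem_erase, mem_EL] at hv
      exact mem_gr.mpr (hv.2.resolve_left hv.1).2
  card_ab := by
    have hA : ∀ t, ((pW d J t, false) : V d J) ∉ (E grp base (.inr (.inl true))).erase (z d J) := by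
      intro t h
      rw [mem_erase, mem_EL] at h
      exact absurd (h.2.resolve_left h.1).2 (by simp [hL, h1, pW])
    have hB : ∀ t, ((pW d J t, false) : V d J) ∈ (E grp base (.inr (.inl false))).erase (z d J) := by
      intro t
      rw [mem_erase, mem_EL]
      exact ⟨fun h => pW_ne_p0 t (Prod.ext_iff.mp h).1, Or.inr ⟨pW_ne_py t, rfl⟩⟩
    have h1 : insert ((pW d J ⟨0, by omega⟩, false) : V d J) (insert (pW d J ⟨1, by omega⟩, false)
        ((E grp base (.inr (.inl true))).erase (z d J))) ⊆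
        (E grp base (.inr (.inl true))).erase (z d J) ∪
          (E grp base (.inr (.inl false))).erase (z d J) := by
      apply insert_subset (mem_union_right _ (hB _))
      exact insert_subset (mem_union_right _ (hB _)) subset_union_left
    have h2 := card_le_card h1
    rw [card_insert_of_notMem, card_insert_of_notMem (hA _), card_erase_of_mem (z_L _), card_E]
      at h2
    · have : 0 < Fintype.card (P d J) := Fintype.card_pos_iff.mpr ⟨p0 d J⟩
      omega
    · rw [mem_insert, not_or]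
      refine ⟨fun h => ?_, hA _⟩
      have := pW_inj (Prod.ext_iff.mp h).1
      simp at this
  u := fun j => (pu d J j, true)
  u' := fun j => (pu' d J j, true)
  u_self := fun j => by simp [mem_EB, hB, pu, pu']
  u_other := fun i j h => by simp [mem_EB, hB, pu, pu', h]
  u_ne := fun i j h => by
    refine ⟨fun e => h ?_, fun e => h ?_, fun e => h ?_⟩ <;>
      exact Sum.inl_injective (congrArg (fun v : V d J => v.1.1.1) e)
  u_z := fun j => by simp [z]
  c := fun t => Lk h1 (pW d J t)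
  c_inj := fun s t h => pW_inj (Lk_inj rfl h)
  c_card := fun t => card_Lk rfl _
  c_z := fun t => mem_Lk.mpr (Or.inl rfl)
  c_a := fun t h => pW_ne_py t (Lk_inj rfl h)
  c_b := fun t => Lk_h1_ne hd _
  race := by
    intro T hT
    obtain ⟨f⟩ : Nonempty (Fin (d - 2) ↪ T) := Function.Embedding.nonempty_of_card_le (by
      simp; omega)
    obtain ⟨τ, hτ⟩ := Equiv.Perm.exists_extending_pair (f := emb (d := d))
      (g := fun i => (f i : Fin (2 * d))) emb_inj (Subtype.val_injective.comp f.injective)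
    refine ⟨τ.viaEmbedding (wE d J), Equiv.injective _, fun j => image_via τ fun s t => ?_,
      image_via τ fun s t => ?_, image_via τ fun s t => ?_, ?_⟩
    · simp [mem_EB, hB, wE, pW]
    · simp only [mem_EL, wE_ne_z, false_or]
      exact ⟨fun _ => ⟨pW_ne_py _, rfl⟩, fun _ => ⟨pW_ne_py _, rfl⟩⟩
    · simp only [mem_EL, wE_ne_z, false_or]
      simp [wE, pL, hL, h2, pW]
    · rintro ((_ | _) | i) ha hb
      · exact absurd rfl hb
      · exact absurd rfl ha
      refine ⟨f i, (f i).2, ?_⟩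
      have e1 : ∀ t, Lk h1 (pW d J t) = insert (z d J) ((gr h1).erase (wE d J t)) := fun t => rfl
      show (Lk h1 (pW d J (emb i))).image _ = _
      rw [e1, e1, image_insert, image_erase (Equiv.injective _), image_via τ,
        Equiv.Perm.viaEmbedding_apply, hτ, Equiv.Perm.viaEmbedding_apply_of_notMem]
      · rintro ⟨t, ht⟩; exact wE_ne_z t ht
      · intro s t; simp [mem_gr, wE, h1, pW]

lemma exists_g (R : ℕ) : ∃ g : ℕ, (g + 2) * R + 3 ≤ 2 ^ g := by
  refine ⟨2 * (R + 2), ?_⟩
  have h1 : ∀ n : ℕ, n + 1 ≤ 2 ^ n := fun n => Nat.lt_two_pow_self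
  have h2 : 2 * (R + 2) ≤ 2 ^ (R + 2) := by
    have := h1 (R + 1)
    rw [pow_succ]; omega
  have h3 : 2 ^ (2 * (R + 2)) = 2 ^ (R + 2) * 2 ^ (R + 2) := by rw [← pow_add]; ring_nf
  rw [h3]
  nlinarith [Nat.mul_le_mul h2 h2]

theorem exists_design (hd : 3 ≤ d) : ∃ (J : Type) (_ : Fintype J) (_ : DecidableEq J),
    Nonempty (Design d (V d J) J (L d)) := by
  obtain ⟨g, hg⟩ := exists_g (2 * d + 4)
  obtain ⟨ι⟩ : Nonempty (K ((Bool ⊕ Fin g) × Fin (2 * d + 4)) ↪ (Fin g → Bool)) :=
    Function.Embedding.nonempty_of_card_le (by simp; nlinarith)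
  let base : K ((Bool ⊕ Fin g) × Fin (2 * d + 4)) → Bool ⊕ Fin g → Bool := fun κ γ =>
    if κ = .inr none then true else
      match γ with
      | .inl b => b
      | .inr i => ι κ i
  refine ⟨(Bool ⊕ Fin g) × Fin (2 * d + 4), inferInstance, inferInstance,
    ⟨design (grp := Prod.fst) (base := base) hd ?_ ?_ ?_⟩⟩
  · intro γ
    have : (univ.filter fun j : (Bool ⊕ Fin g) × Fin (2 * d + 4) => j.1 = γ) =
        univ.image fun r => (γ, r) := by
      ext ⟨a, b⟩; simp [eq_comm]
    rw [this, card_image_of_injective _ (fun a b h => (Prod.ext_iff.mp h).2)]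
    simp
  · intro γ; simp [base]
  · rintro ⟨κ, ε⟩ ⟨κ', ε'⟩ hne
    by_cases hε : ε = ε'
    · subst hε
      have hκ : κ ≠ κ' := fun h => hne (by rw [h])
      by_cases h1 : κ = .inr none
      · refine ⟨.inl false, ?_⟩
        have h2 : κ' ≠ .inr none := fun h => hκ (h1.trans h.symm)
        cases ε <;> simp [base, h1, h2]
      by_cases h2 : κ' = .inr none
      · refine ⟨.inl false, ?_⟩
        cases ε <;> simp [base, h1, h2]
      obtain ⟨i, hi⟩ := Function.ne_iff.mp (ι.injective.ne hκ)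
      refine ⟨.inr i, ?_⟩
      simp only [base, h1, h2, if_false]
      revert hi
      cases ε <;> cases ι κ i <;> cases ι κ' i <;> simp
    · refine ⟨.inl true, ?_⟩
      have h1 : ∀ κ, base κ (.inl true) = true := fun κ => by simp [base]
      rw [h1, h1]
      revert hε
      cases ε <;> cases ε' <;> simp

end Pool.Agent.H250Z.SR.Inst
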