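import Pool.Agent.H250Z.SR.Step2

set_option autoImplicit false
set_option linter.unusedSectionVars false

namespace Pool.Agent.H250Z.SR

open Finset Function

lemma exists_play (next : List (Finset ℕ) → Finset ℕ) :
    ∃ m : ℕ → Finset ℕ, ∀ i, m i = next (List.ofFn fun j : Fin i => m j) := by
  let hist : ℕ → List (Finset ℕ) := fun n => Nat.rec [] (fun _ l => l ++ [next l]) n
  have h : ∀ i, hist i = List.ofFn fun j : Fin i => next (hist j) := by
    intro i
    induction i with
    | zero => simp [hist]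
    | succ i ih =>
      rw [List.ofFn_succ_last]
      simp only [Fin.val_castSucc, Fin.val_last]
      rw [← ih]
  exact ⟨fun i => next (hist i), fun i => by rw [← h i]⟩

variable {d : ℕ} {V J L : Type} [Fintype V] [DecidableEq V] [Fintype J] [DecidableEq J]
    [Fintype L] [DecidableEq L]

namespace Design

variable (D : Design d V J L)

lemma exists_resp : ∃ resp : Finset (Finset ℕ) → Finset (Finset ℕ) → Finset ℕ, ∀ F S,
    (resp F S).card = D.k ∧ resp F S ∉ F ∧ resp F S ∉ S ∧
      (D.Good F S → D.Inv F (insert (resp F S) S)) := by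
  have : ∀ F S : Finset (Finset ℕ), ∃ e : Finset ℕ, e.card = D.k ∧ e ∉ F ∧ e ∉ S ∧
      (D.Good F S → D.Inv F (insert e S)) := by
    intro F S
    by_cases h : D.Good F S
    · obtain ⟨e, h1, h2, h3, h4⟩ := h
      exact ⟨e, h1, h2, h3, fun _ => h4⟩
    · obtain ⟨e, h1, h2, h3⟩ := D.exists_legal F S
      exact ⟨e, h1, h2, h3, fun h' => absurd h' h⟩
  choose resp h using this
  exact ⟨resp, h⟩

theorem no_win (att def' : ℕ → Prop) (hdef : ∀ i, def' i ↔ ¬ att i)
    (halt : ∀ i, att (i + 1) ↔ ¬ att i) :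
    ¬ ∃ s : List (Finset ℕ) → Finset ℕ, ∀ m : ℕ → Finset ℕ,
      (∀ i : ℕ, att i → m i = s (List.ofFn (fun j : Fin i => m j))) →
      (∀ i : ℕ, def' i → (m i).card = D.k ∧ ∀ j < i, m j ≠ m i) →
      ∃ N : ℕ, att N ∧
        (∀ i ≤ N, att i → (m i).card = D.k ∧ ∀ j < i, m j ≠ m i) ∧
        (∃ f : V → ℕ, Injective f ∧ ∀ x, ∃ i ≤ N, att i ∧ m i = (D.E x).image f) ∧
        ¬ (∃ f : V → ℕ, Injective f ∧ ∀ x, ∃ i < N, def' i ∧ m i = (D.E x).image f) := by
  classical
  rintro ⟨s, hs⟩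
  obtain ⟨resp, hresp⟩ := D.exists_resp
  let A : List (Finset ℕ) → Finset (Finset ℕ) := fun l =>
    ((range l.length).filter att).image fun j => l.getD j ∅
  let B : List (Finset ℕ) → Finset (Finset ℕ) := fun l =>
    ((range l.length).filter fun j => ¬ att j).image fun j => l.getD j ∅
  obtain ⟨m, hm⟩ := exists_play fun l => if att l.length then s l else resp (A l) (B l)
  let Ai : ℕ → Finset (Finset ℕ) := fun i => ((range i).filter att).image m
  let Bi : ℕ → Finset (Finset ℕ) := fun i => ((range i).filter fun j => ¬ att j).image m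
  have hget : ∀ i j, j < i → (List.ofFn fun j : Fin i => m j).getD j ∅ = m j := by
    intro i j hj
    rw [List.getD_eq_getElem _ _ (by simpa using hj)]
    simp
  have hA : ∀ i, A (List.ofFn fun j : Fin i => m j) = Ai i := by
    intro i
    simp only [A, Ai, List.length_ofFn]
    exact image_congr fun j hj => hget i j (by simp at hj; exact hj.1)
  have hB : ∀ i, B (List.ofFn fun j : Fin i => m j) = Bi i := by
    intro i
    simp only [B, Bi, List.length_ofFn]
    exact image_congr fun j hj => hget i j (by simp at hj; exact hj.1)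
  have hatt : ∀ i, att i → m i = s (List.ofFn fun j : Fin i => m j) := by
    intro i hi
    rw [hm i]
    simp only [List.length_ofFn, if_pos hi]
  have hdefm : ∀ i, ¬ att i → m i = resp (Ai i) (Bi i) := by
    intro i hi
    rw [hm i]
    simp only [List.length_ofFn, if_neg hi, hA, hB]
  have memA : ∀ i p, p ∈ Ai i ↔ ∃ j < i, att j ∧ m j = p := by
    intro i p; simp [Ai, and_assoc]
  have memB : ∀ i p, p ∈ Bi i ↔ ∃ j < i, ¬ att j ∧ m j = p := by
    intro i p; simp [Bi, and_assoc]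
  have hA1 : ∀ i, att i → Ai (i + 1) = insert (m i) (Ai i) ∧ Bi (i + 1) = Bi i := by
    intro i hi
    simp [Ai, Bi, range_add_one, filter_insert, hi]
  have hB1 : ∀ i, ¬ att i → Ai (i + 1) = Ai i ∧ Bi (i + 1) = insert (m i) (Bi i) := by
    intro i hi
    simp [Ai, Bi, range_add_one, filter_insert, hi]
  obtain ⟨N, hN, hleg, ⟨f, hf, hfx⟩, hno⟩ := hs m hatt (by
    intro i hi
    have hi' := (hdef i).mp hi
    obtain ⟨h1, h2, h3, -⟩ := hresp (Ai i) (Bi i)
    rw [← hdefm i hi'] at h1 h2 h3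
    refine ⟨h1, fun j hj h => ?_⟩
    by_cases hj' : att j
    · exact h2 ((memA _ _).mpr ⟨j, hj, hj', h⟩)
    · exact h3 ((memB _ _).mpr ⟨j, hj, hj', h⟩))
  have hnB : ∀ i ≤ N, att i → m i ∉ Bi i := by
    intro i hi ha h
    obtain ⟨j, hj, -, hj'⟩ := (memB _ _).mp h
    exact (hleg i hi ha).2 j hj hj'
  have key : ∀ i ≤ N, (att i → D.Inv (Ai i) (Bi i)) ∧ (¬ att i → D.Good (Ai i) (Bi i)) := by
    intro i
    induction i with
    | zero =>
      intro _
      have h0 : Ai 0 = ∅ := by simp [Ai]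
      have h1 : Bi 0 = ∅ := by simp [Bi]
      rw [h0, h1]
      refine ⟨fun _ => ⟨by simp, Or.inr (Or.inl rfl)⟩, fun _ => ?_⟩
      obtain ⟨e, h1, h2, h3⟩ := D.exists_legal ∅ ∅
      exact ⟨e, h1, h2, h3, by simp, Or.inr (Or.inl rfl)⟩
    | succ i ih =>
      intro hi
      have ih' := ih (by omega)
      constructor
      · intro ha
        have hna := (halt i).mp ha
        rw [(hB1 i hna).1, (hB1 i hna).2, hdefm i hna]
        exact (hresp _ _).2.2.2 (ih'.2 hna)
      · intro hna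
        have ha : att i := by
          by_contra h
          exact hna ((halt i).mpr h)
        rw [(hA1 i ha).1, (hA1 i ha).2]
        exact (step (ih'.1 ha) (hnB i (by omega) ha)).2
  apply (step ((key N le_rfl).1 hN) (hnB N le_rfl hN)).1
  constructor
  · refine ⟨f, hf, fun x => ?_⟩
    rw [← (hA1 N hN).1, memA]
    obtain ⟨i, hi, ha, h⟩ := hfx x
    exact ⟨i, by omega, ha, h⟩
  · rintro ⟨g, hg, hgx⟩
    apply hno
    refine ⟨g, hg, fun x => ?_⟩
    obtain ⟨i, hi, ha, h⟩ := (memB _ _).mp (hgx x)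
    exact ⟨i, hi, (hdef i).mpr ha, h⟩

include D in
theorem main : ∃ (k n : ℕ) (H : Finset (Finset (Fin n))), 0 < n ∧
    (∀ e ∈ H, e.card = k) ∧
    (∀ v : Fin n, d ≤ (H.filter (fun e => v ∈ e)).card) ∧
    (¬ ∃ s : List (Finset ℕ) → Finset ℕ, ∀ m : ℕ → Finset ℕ,
        (∀ i : ℕ, Even i → m i = s (List.ofFn (fun j : Fin i => m j))) →
        (∀ i : ℕ, Odd i → (m i).card = k ∧ ∀ j < i, m j ≠ m i) →
        ∃ N : ℕ, Even N ∧
          (∀ i ≤ N, Even i → (m i).card = k ∧ ∀ j < i, m j ≠ m i) ∧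
          (∃ f : Fin n → ℕ, Function.Injective f ∧
              ∀ e ∈ H, ∃ i ≤ N, Even i ∧ m i = e.image f) ∧
          ¬ (∃ f : Fin n → ℕ, Function.Injective f ∧
              ∀ e ∈ H, ∃ i < N, Odd i ∧ m i = e.image f)) ∧
    (¬ ∃ t : List (Finset ℕ) → Finset ℕ, ∀ m : ℕ → Finset ℕ,
        (∀ i : ℕ, Odd i → m i = t (List.ofFn (fun j : Fin i => m j))) →
        (∀ i : ℕ, Even i → (m i).card = k ∧ ∀ j < i, m j ≠ m i) →
        ∃ N : ℕ, Odd N ∧
          (∀ i ≤ N, Odd i → (m i).card = k ∧ ∀ j < i, m j ≠ m i) ∧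
          (∃ f : Fin n → ℕ, Function.Injective f ∧
              ∀ e ∈ H, ∃ i ≤ N, Odd i ∧ m i = e.image f) ∧
          ¬ (∃ f : Fin n → ℕ, Function.Injective f ∧
              ∀ e ∈ H, ∃ i < N, Even i ∧ m i = e.image f)) := by
  classical
  let ε := Fintype.equivFin V
  let H : Finset (Finset (Fin (Fintype.card V))) := univ.image fun x => (D.E x).image ε
  have tr : ∀ P : Finset ℕ → Prop,
      (∃ f : Fin (Fintype.card V) → ℕ, Injective f ∧ ∀ e ∈ H, P (e.image f)) ↔
      (∃ f : V → ℕ, Injective f ∧ ∀ x, P ((D.E x).image f)) := by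
    intro P
    constructor
    · rintro ⟨f, hf, h⟩
      refine ⟨f ∘ ε, hf.comp ε.injective, fun x => ?_⟩
      rw [← image_image]
      exact h _ (mem_image_of_mem _ (mem_univ x))
    · rintro ⟨f, hf, h⟩
      refine ⟨f ∘ ε.symm, hf.comp ε.symm.injective, fun e he => ?_⟩
      obtain ⟨x, -, rfl⟩ := mem_image.mp he
      rw [image_image]
      simpa [Function.comp_def] using h x
  refine ⟨D.k, Fintype.card V, H, Fintype.card_pos_iff.mpr ⟨D.z⟩, ?_, ?_, ?_, ?_⟩
  · intro e he
    obtain ⟨x, -, rfl⟩ := mem_image.mp he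
    rw [card_image_of_injective _ ε.injective, D.card_E]
  · intro v
    obtain ⟨w, rfl⟩ := ε.surjective v
    have hinj : Injective fun x => (D.E x).image ε := fun x y h =>
      D.E_inj (image_injective ε.injective h)
    by_cases hw : w = D.z
    · rw [← D.hL, ← card_univ]
      apply card_le_card_of_injOn fun l => (D.E (.inr l)).image ε
      · intro l _
        simp only [coe_filter, Set.mem_setOf_eq]
        exact ⟨mem_image_of_mem _ (mem_univ _), mem_image_of_mem _ (hw ▸ D.z_L l)⟩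
      · exact (hinj.comp Sum.inr_injective).injOn
    · refine le_trans (by omega) ((D.deg w hw).trans ?_)
      apply card_le_card_of_injOn fun j => (D.E (.inl j)).image ε
      · intro j hj
        simp only [coe_filter, Set.mem_setOf_eq, mem_univ, true_and] at hj ⊢
        exact ⟨mem_image_of_mem _ (mem_univ _), mem_image_of_mem _ hj⟩
      · exact (hinj.comp Sum.inl_injective).injOn
  · have := D.no_win Even Odd (fun i => Nat.not_even_iff_odd.symm) (fun i => Nat.even_add_one)
    intro ⟨s, hs⟩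
    refine this ⟨s, fun m h1 h2 => ?_⟩
    obtain ⟨N, hN, h3, h4, h5⟩ := hs m h1 h2
    exact ⟨N, hN, h3, (tr fun p => ∃ i ≤ N, Even i ∧ m i = p).mp h4,
      fun h => h5 ((tr fun p => ∃ i < N, Odd i ∧ m i = p).mpr h)⟩
  · have := D.no_win Odd Even (fun i => Nat.not_odd_iff_even.symm) (fun i => Nat.odd_add_one)
    intro ⟨s, hs⟩
    refine this ⟨s, fun m h1 h2 => ?_⟩
    obtain ⟨N, hN, h3, h4, h5⟩ := hs m h1 h2
    exact ⟨N, hN, h3, (tr fun p => ∃ i ≤ N, Odd i ∧ m i = p).mp h4,
      fun h => h5 ((tr fun p => ∃ i < N, Even i ∧ m i = p).mpr h)⟩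

end Design

end Pool.Agent.H250Z.SR
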