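import Mathlib

set_option autoImplicit false
set_option linter.unusedSectionVars false

namespace Pool.Agent.H250Z.SR.Inst

open Finset Function

variable (d : ℕ) (J : Type) [Fintype J] [DecidableEq J]

/-- cluster pairs -/
abbrev K (J : Type) := J ⊕ Option Bool

/-- cluster sizes -/
noncomputable def mu : K J → ℕ
  | .inl j => (Fintype.equivFin J j : ℕ) + 2 * d + 2
  | .inr none => 1
  | .inr (some false) => 1
  | .inr (some true) => 2 * d

/-- positions -/
def P := {p : K J × ℕ // p.2 < mu d J p.1}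

instance : DecidableEq (P d J) := inferInstanceAs (DecidableEq {p : K J × ℕ // p.2 < mu d J p.1})

instance : Finite (P d J) :=
  Finite.of_injective (fun p : P d J => (⟨p.1.1, ⟨p.1.2, p.2⟩⟩ : Σ κ : K J, Fin (mu d J κ))) (by
    rintro ⟨⟨a, b⟩, h⟩ ⟨⟨a', b'⟩, h'⟩ heq
    simp only [Sigma.mk.injEq] at heq
    obtain ⟨rfl, h2⟩ := heq
    have := eq_of_heq h2
    simp only [Fin.mk.injEq] at this
    subst this
    rfl)

noncomputable instance : Fintype (P d J) := Fintype.ofFinite _

/-- vertices -/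
abbrev V := P d J × Bool

/-- links -/
abbrev L (d : ℕ) := Bool ⊕ Fin (d - 2)

def p0 : P d J := ⟨(.inr none, 0), by simp [mu]⟩
def py : P d J := ⟨(.inr (some false), 0), by simp [mu]⟩
def pW (t : Fin (2 * d)) : P d J := ⟨(.inr (some true), t), by simp [mu]⟩
def pu (j : J) : P d J := ⟨(.inl j, 0), by simp [mu]⟩
def pu' (j : J) : P d J := ⟨(.inl j, 1), by simp [mu]⟩
def z : V d J := (p0 d J, false)
def v0 : V d J := (p0 d J, true)

variable {d J}

def h1 (p : P d J) : Bool :=
  match p.1.1 with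
  | .inl _ => decide (p.1.2 = 0)
  | .inr _ => true

def h2 (p : P d J) : Bool :=
  match p.1.1 with
  | .inl _ => decide (p.1.2 = 0)
  | .inr (some true) => false
  | .inr _ => true

noncomputable def gr (h : P d J → Bool) : Finset (V d J) := univ.filter fun v => v.2 = h v.1

lemma mem_gr {h : P d J → Bool} {v : V d J} : v ∈ gr h ↔ v.2 = h v.1 := by simp [gr]

lemma card_gr (h : P d J → Bool) : (gr h).card = Fintype.card (P d J) := by
  have : gr h = univ.image fun p => (p, h p) := by
    ext ⟨p, e⟩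
    simp only [mem_gr, mem_image, mem_univ, true_and, Prod.mk.injEq]
    constructor
    · intro h; exact ⟨p, rfl, h.symm⟩
    · rintro ⟨q, rfl, h⟩; exact h.symm
  rw [this, card_image_of_injective _ (fun p q h => (Prod.ext_iff.mp h).1), card_univ]

noncomputable def Lk (h : P d J → Bool) (p : P d J) : Finset (V d J) :=
  insert (z d J) ((gr h).erase (p, h p))

lemma mem_Lk {h : P d J → Bool} {p : P d J} {v : V d J} :
    v ∈ Lk h p ↔ v = z d J ∨ (v.1 ≠ p ∧ v.2 = h v.1) := by
  simp only [Lk, mem_insert, mem_erase, mem_gr]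
  apply or_congr_right
  obtain ⟨q, e⟩ := v
  simp only [ne_eq, Prod.mk.injEq, not_and]
  constructor
  · rintro ⟨h1, h2⟩
    exact ⟨fun hq => h1 hq (by rw [h2, hq]), h2⟩
  · rintro ⟨h1, h2⟩
    exact ⟨fun hq => absurd hq h1, h2⟩

lemma card_Lk {h : P d J → Bool} (h0 : h (p0 d J) = true) (p : P d J) :
    (Lk h p).card = Fintype.card (P d J) := by
  rw [Lk, card_insert_of_notMem, card_erase_of_mem (by simp [mem_gr]), card_gr]
  · have : 0 < Fintype.card (P d J) := Fintype.card_pos_iff.mpr ⟨p⟩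
    omega
  · simp [mem_gr, z, h0]

def emb (i : Fin (d - 2)) : Fin (2 * d) := ⟨i, by omega⟩

def hL : L d → P d J → Bool
  | .inl false => h2
  | _ => h1

def pL : L d → P d J
  | .inl _ => py d J
  | .inr i => pW d J (emb i)

variable {Gp : Type} [DecidableEq Gp] (grp : J → Gp) (base : K J → Gp → Bool)

def hB (j : J) (p : P d J) : Bool :=
  xor (base p.1.1 (grp j)) (decide (p.1.1 = .inl j ∧ p.1.2 = 0))

noncomputable def E : J ⊕ L d → Finset (V d J)
  | .inl j => gr (hB grp base j)
  | .inr l => Lk (hL l) (pL l)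

def cl (v : V d J) : K J × Bool := (v.1.1.1, v.2)

variable {grp base}

lemma mem_EB {j : J} {v : V d J} : v ∈ E grp base (.inl j) ↔ v.2 = hB grp base j v.1 := mem_gr

lemma mem_EL {l : L d} {v : V d J} :
    v ∈ E grp base (.inr l) ↔ v = z d J ∨ (v.1 ≠ pL l ∧ v.2 = hL l v.1) := mem_Lk

lemma hL_p0 (l : L d) : hL l (p0 d J) = true := by
  rcases l with (_ | _) | _ <;> rfl

lemma pL_ne (l : L d) : pL l ≠ p0 d J := by
  rcases l with _ | _ <;> simp [pL, py, pW, p0, P, Subtype.ext_iff]

lemma mem_EL_inl {l : L d} {v : V d J} {j : J} (hv : v.1.1.1 = .inl j) :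
    v ∈ E grp base (.inr l) ↔ v.2 = decide (v.1.1.2 = 0) := by
  rw [mem_EL]
  have h1 : v ≠ z d J := by rintro rfl; simp [z, p0] at hv
  have h2 : v.1 ≠ pL l := by
    intro h
    rw [h] at hv
    rcases l with _ | _ <;> simp [pL, py, pW] at hv
  have h3 : hL l v.1 = decide (v.1.1.2 = 0) := by
    rcases l with (_ | _) | _ <;> simp [hL, Inst.h1, Inst.h2, hv]
  simp [h1, h2, h3]

lemma card_E (x : J ⊕ L d) : (E grp base x).card = Fintype.card (P d J) := by
  rcases x with j | l
  · exact card_gr _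
  · exact card_Lk (hL_p0 l) _

lemma z_L (l : L d) : z d J ∈ E grp base (.inr l) := mem_EL.mpr (Or.inl rfl)

lemma one_le (κ : K J) : (univ.filter fun j : J => κ = .inl j).card ≤ 1 := by
  rw [card_le_one]
  intro x hx y hy
  simp only [mem_filter, mem_univ, true_and] at hx hy
  exact Sum.inl_injective (hx.symm.trans hy)

lemma near {v v' : V d J} (h : cl v = cl v') :
    (univ.filter fun j => ¬ (v ∈ E grp base (.inl j) ↔ v' ∈ E grp base (.inl j))).card ≤ 1 := by
  refine le_trans (card_le_card ?_) (one_le v.1.1.1)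
  intro j hj
  simp only [mem_filter, mem_univ, true_and, mem_EB, hB] at hj ⊢
  simp only [cl, Prod.mk.injEq] at h
  by_contra hne
  apply hj
  rw [← h.1, ← h.2]
  simp [hne]

lemma cl_p0 {v : V d J} (h : v.1.1.1 = .inr none) : v.1 = p0 d J := by
  obtain ⟨⟨⟨κ, t⟩, ht⟩, e⟩ := v
  simp only at h
  subst h
  simp only [mu, Nat.lt_one_iff] at ht
  subst ht
  rfl

lemma cl_py {v : V d J} (h : v.1.1.1 = .inr (some false)) : v.1 = py d J := by
  obtain ⟨⟨⟨κ, t⟩, ht⟩, e⟩ := v
  simp only at h
  subst h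
  simp only [mu, Nat.lt_one_iff] at ht
  subst ht
  rfl

lemma cl_z {v : V d J} (h : cl v = cl (z d J)) : v = z d J := by
  simp only [cl, Prod.mk.injEq] at h
  exact Prod.ext (cl_p0 h.1) h.2

lemma cl_v0 {v : V d J} (h : cl v = cl (v0 d J)) : v = v0 d J := by
  simp only [cl, Prod.mk.injEq] at h
  exact Prod.ext (cl_p0 h.1) h.2

lemma card_cl (v : V d J) : (univ.filter fun v' : V d J => cl v' = cl v).card = mu d J v.1.1.1 := by
  rw [← card_range (mu d J v.1.1.1)]
  apply card_bij (fun (v' : V d J) _ => v'.1.1.2)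
  · intro v' hv'
    simp only [mem_filter, mem_univ, true_and, cl, Prod.mk.injEq] at hv'
    rw [mem_range, ← hv'.1]
    exact v'.1.2
  · intro a ha b hb hab
    simp only [mem_filter, mem_univ, true_and, cl, Prod.mk.injEq] at ha hb
    exact Prod.ext (Subtype.ext (Prod.ext (ha.1.trans hb.1.symm) hab)) (ha.2.trans hb.2.symm)
  · intro t ht
    exact ⟨(⟨(v.1.1.1, t), mem_range.mp ht⟩, v.2), by simp [cl], rfl⟩

lemma mu_inj {κ : K J} {j : J} (h : mu d J κ = mu d J (.inl j)) : κ = .inl j := by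
  rcases κ with i | _ | _ | _
  · simp only [mu] at h
    have : (Fintype.equivFin J i : ℕ) = Fintype.equivFin J j := by omega
    rw [(Fintype.equivFin J).injective (Fin.ext this)]
  all_goals (simp only [mu] at h; omega)

/-- `x` splits a cluster of the pair `j` exactly when `x = j` or `x` is a link -/
lemma split_iff (x : J ⊕ L d) (j : J) :
    (∃ v v' : V d J, v.1.1.1 = .inl j ∧ cl v = cl v' ∧ v ∈ E grp base x ∧ v' ∉ E grp base x) ↔
      (x = .inl j ∨ ∃ l, x = .inr l) := by
  constructor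
  · rintro ⟨v, v', h1, h2, h3, h4⟩
    rcases x with i | l
    · left
      by_contra hne
      have hne' : ¬ (Sum.inl j : K J) = .inl i := by
        intro h; exact hne (by rw [Sum.inl_injective h])
      simp only [cl, Prod.mk.injEq] at h2
      rw [mem_EB, hB] at h3 h4
      apply h4
      rw [← h2.1, ← h2.2, h3, h1]
      simp [hne']
    · exact Or.inr ⟨l, rfl⟩
  · rintro (rfl | ⟨l, rfl⟩)
    · refine ⟨(pu d J j, !base (.inl j) (grp j)), (pu' d J j, !base (.inl j) (grp j)), rfl, rfl,
        ?_, ?_⟩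
      · simp [mem_EB, hB, pu]
      · simp [mem_EB, hB, pu']
    · refine ⟨(pu d J j, true), (pu' d J j, true), rfl, rfl, ?_, ?_⟩
      · rw [mem_EL_inl (j := j) rfl]; simp [pu]
      · rw [mem_EL_inl (j := j) rfl]; simp [pu']

section hyp

variable (hgrp : ∀ γ, 2 * d + 4 ≤ (univ.filter fun j => grp j = γ).card)
  (hbase : ∀ γ, base (.inr none) γ = true)
  (hsep : ∀ c c' : K J × Bool, c ≠ c' → ∃ γ, (c.2 = base c.1 γ) ≠ (c'.2 = base c'.1 γ))

include hgrp hsep in
lemma far {v v' : V d J} (h : cl v ≠ cl v') :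
    2 * d + 2 ≤
      (univ.filter fun j => ¬ (v ∈ E grp base (.inl j) ↔ v' ∈ E grp base (.inl j))).card := by
  obtain ⟨γ, hγ⟩ := hsep _ _ h
  have h1 := hgrp γ
  have h2 := one_le v.1.1.1
  have h3 := one_le v'.1.1.1
  have h4 : (univ.filter fun j => grp j = γ) ⊆
      ((univ.filter fun j => ¬ (v ∈ E grp base (.inl j) ↔ v' ∈ E grp base (.inl j))) ∪
        (univ.filter fun j : J => v.1.1.1 = .inl j)) ∪
        (univ.filter fun j : J => v'.1.1.1 = .inl j) := by
    intro j hj
    simp only [mem_filter, mem_univ, true_and, mem_union, mem_EB, hB] at hj ⊢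
    by_cases ha : v.1.1.1 = .inl j
    · exact Or.inl (Or.inr ha)
    by_cases hb : v'.1.1.1 = .inl j
    · exact Or.inr hb
    left; left
    simp only [cl] at hγ
    rw [hj]
    simpa [ha, hb] using hγ
  have h5 := (card_le_card h4).trans ((card_union_le _ _).trans
    (Nat.add_le_add_right (card_union_le _ _) _))
  omega

include hbase in
lemma z_B (j : J) : z d J ∉ E grp base (.inl j) := by
  simp [mem_EB, hB, z, p0, hbase]

include hbase in
lemma v0_mem (x : J ⊕ L d) : v0 d J ∈ E grp base x := by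
  rcases x with j | l
  · simp [mem_EB, hB, v0, p0, hbase]
  · exact mem_EL.mpr (Or.inr ⟨(pL_ne l).symm, (hL_p0 l).symm⟩)

include hgrp hbase hsep in
lemma deg {v : V d J} (h : v ≠ z d J) :
    2 * d + 2 ≤ (univ.filter fun j => v ∈ E grp base (.inl j)).card := by
  have := far hgrp hsep (fun h' => h (cl_z h'))
  simpa [z_B hbase] using this

include hgrp hsep in
lemma cl_of_same {v v' : V d J} (h : ∀ j, v ∈ E grp base (.inl j) ↔ v' ∈ E grp base (.inl j)) :
    cl v = cl v' ∧ ∀ j, v.1.1.1 = .inl j → (v.1.1.2 = 0 ↔ v'.1.1.2 = 0) := by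
  have h1 : cl v = cl v' := by
    by_contra hne
    have := far hgrp hsep hne
    simp [h] at this
  refine ⟨h1, fun j hj => ?_⟩
  have h2 := h j
  simp only [cl, Prod.mk.injEq] at h1
  rw [mem_EB, mem_EB, hB, hB, ← h1.1, ← h1.2, hj] at h2
  revert h2
  cases v.2 <;> cases base (.inl j) (grp j) <;> simp [not_iff_not]

lemma card_L (hd : 3 ≤ d) : Fintype.card (L d) = d := by
  simp; omega

lemma Lk_inj {h : P d J → Bool} (h0 : h (p0 d J) = true) {p q : P d J} (hpq : Lk h p = Lk h q) :
    p = q := by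
  by_contra hne
  have h1 : (p, h p) ∈ Lk h q := mem_Lk.mpr (Or.inr ⟨hne, rfl⟩)
  rw [← hpq, mem_Lk] at h1
  rcases h1 with h1 | h1
  · simp only [z, Prod.mk.injEq] at h1
    rw [h1.1, h0] at h1
    simp at h1
  · exact h1.1 rfl

lemma pW_ne_py (t : Fin (2 * d)) : pW d J t ≠ py d J := by
  simp [py, pW, P, Subtype.ext_iff]

lemma pW_ne_p0 (t : Fin (2 * d)) : pW d J t ≠ p0 d J := by
  simp [p0, pW, P, Subtype.ext_iff]

lemma pW_inj : Injective (pW d J) := by
  intro s t h
  simp only [pW, P, Subtype.ext_iff, Prod.mk.injEq, true_and] at h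
  exact Fin.ext h

lemma Lk_h1_ne (hd : 3 ≤ d) (p : P d J) : Lk h1 p ≠ Lk h2 (py d J) := by
  intro h
  have h3 : ((pW d J ⟨0, by omega⟩, false) : V d J) ∈ Lk h2 (py d J) :=
    mem_Lk.mpr (Or.inr ⟨pW_ne_py _, rfl⟩)
  rw [← h, mem_Lk] at h3
  rcases h3 with h3 | h3
  · exact pW_ne_p0 _ (Prod.ext_iff.mp h3).1
  · exact absurd h3.2 (by simp [h1, pW])

lemma emb_inj : Injective (emb (d := d)) := by
  intro i j h
  simp only [emb, Fin.mk.injEq] at h
  exact Fin.ext h

include hbase in
lemma E_inj (hd : 3 ≤ d) : Injective (E (d := d) grp base) := by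
  have hs := split_iff (d := d) (grp := grp) (base := base)
  rintro (i | l) (j | l') h
  · have := (hs (.inl j) i).mp (h ▸ (hs (.inl i) i).mpr (Or.inl rfl))
    simpa [eq_comm] using this
  · exact absurd (h ▸ z_L l') (z_B hbase i)
  · exact absurd (h ▸ z_L l) (z_B hbase j)
  · rcases l with (_ | _) | l <;> rcases l' with (_ | _) | l' <;> simp only [E, hL, pL] at h
    · rfl
    · exact absurd h.symm (Lk_h1_ne hd _)
    · exact absurd h.symm (Lk_h1_ne hd _)
    · exact absurd h (Lk_h1_ne hd _)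
    · rfl
    · exact absurd (Lk_inj rfl h).symm (pW_ne_py _)
    · exact absurd h (Lk_h1_ne hd _)
    · exact absurd (Lk_inj rfl h) (pW_ne_py _)
    · rw [emb_inj (pW_inj (Lk_inj rfl h))]

lemma card_split (Q : J ⊕ L d → Prop) [DecidablePred Q] :
    (univ.filter Q).card = (univ.filter fun j => Q (.inl j)).card +
      (univ.filter fun l => Q (.inr l)).card := by
  rw [card_filter, card_filter, card_filter, Fintype.sum_sum_type]

include hgrp hbase hsep in
lemma apex (hd : 3 ≤ d) {v : V d J} (h : v ≠ v0 d J) :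
    (univ.filter fun x => v ∈ E grp base x).card + 2 ≤ Fintype.card J := by
  have h1 := far hgrp hsep (fun h' => h (cl_v0 h'))
  simp only [v0_mem hbase, iff_true] at h1
  have h2 := card_split (fun x => v ∈ E grp base x)
  have h3 := card_filter_add_card_filter_not (s := (univ : Finset J))
    (fun j => v ∈ E grp base (.inl j))
  have h4 : (univ.filter fun l : L d => v ∈ E grp base (.inr l)).card ≤ d :=
    (card_le_univ _).trans (card_L hd).le
  rw [card_univ] at h3
  omega

end hyp

end Pool.Agent.H250Z.SR.Inst
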