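import Pool.Agent.H250Z.SR.Basic

set_option autoImplicit false
set_option linter.unusedSectionVars false

namespace Pool.Agent.H250Z.SR

open Finset Function

variable {d : ℕ} {V J L : Type} [Fintype V] [DecidableEq V] [Fintype J] [DecidableEq J]
    [Fintype L] [DecidableEq L]

namespace Design

variable (D : Design d V J L)

def Base (F S : Finset (Finset ℕ)) (e1 : Finset ℕ) (ψ : V → ℕ) : Prop :=
  e1 ∈ F ∧ Injective ψ ∧ (∀ v, v ≠ D.z → ψ v ∉ e1) ∧ ∀ j, D.im ψ (.inl j) ∈ S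

def NN (F : Finset (Finset ℕ)) (ψ : V → ℕ) (x y : L) : Prop :=
  ∀ φ : V → ℕ, Injective φ → (∀ j, D.im φ (.inl j) ∈ F) →
    (∃ l, (D.lk l).image φ = (D.lk y).image ψ) → ∃ l, (D.lk l).image φ = (D.lk x).image ψ

def AB (x y : L) : Prop := (x = D.a ∧ y = D.b) ∨ (x = D.b ∧ y = D.a)

def Build (F S : Finset (Finset ℕ)) : Prop :=
  ∃ e1 ∈ F, ∃ ψ : V → ℕ, Injective ψ ∧ (∀ v, ψ v ∉ e1) ∧ ∃ T : Finset J,
    (∀ j ∈ T, ∃ β, (D.opt j β).image ψ ∈ S) ∧
    (∀ j ∉ T, ∀ β, (D.opt j β).image ψ ∉ F ∧ (D.opt j β).image ψ ∉ S) ∧ F.card ≤ T.card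

def HasB (F S : Finset (Finset ℕ)) : Prop :=
  ∃ e1 ψ, D.Base F S e1 ψ ∧ ∃ φ : V → ℕ, Injective φ ∧ (∀ j, D.im φ (.inl j) ∈ F) ∧
    ∀ p ∈ F, (∃ j, p = D.im φ (.inl j)) ∨ ∃ φp : V → ℕ, Injective φp ∧ D.Same φ φp ∧
      (∃ l, p = D.im φp (.inr l)) ∧ (∃ y, (y = D.a ∨ y = D.b) ∧ D.im φp (.inr y) ∈ S) ∧
      ∀ p' ∈ F, φp D.z ∈ p' → p' = p

def Slow (F S : Finset (Finset ℕ)) : Prop :=
  ∃ e1 ψ, D.Base F S e1 ψ ∧ D.Tau F S (d + 1) ∧ ∃ φ : V → ℕ, Injective φ ∧
    ∀ p ∈ F, ∃ x, p = D.im φ x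

def Attack (F S : Finset (Finset ℕ)) : Prop :=
  ∃ (ψ : V → ℕ) (x y : L), Injective ψ ∧ (∀ j, D.im ψ (.inl j) ∈ S) ∧ D.AB x y ∧
    D.im ψ (.inr x) ∈ S ∧ (∀ p ∈ F, ψ D.z ∉ p) ∧ (∀ p ∈ S, ψ D.z ∈ p → p = D.im ψ (.inr x)) ∧
    D.Tau F S d ∧ D.NN F ψ x y

def Race (F S : Finset (Finset ℕ)) : Prop :=
  ∃ (ψ : V → ℕ) (r : ℕ) (T : Finset (Fin (2 * d))), Injective ψ ∧ (∀ j, D.im ψ (.inl j) ∈ S) ∧
    D.im ψ (.inr D.a) ∈ S ∧ D.im ψ (.inr D.b) ∈ S ∧ (∀ t ∈ T, (D.c t).image ψ ∈ S) ∧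
    T.card + r + 2 = d ∧
    2 * r ≤ (univ.filter fun t => (D.c t).image ψ ∉ F ∧ (D.c t).image ψ ∉ S).card ∧
    D.Tau F S (r + 1)

def Inv (F S : Finset (Finset ℕ)) : Prop :=
  Disjoint F S ∧ (D.HasCopy S ∨ F = ∅ ∨ D.Build F S ∨ D.HasB F S ∨ D.Slow F S ∨ D.Attack F S ∨
    D.Race F S)

def Good (F S : Finset (Finset ℕ)) : Prop :=
  ∃ e' : Finset ℕ, e'.card = D.k ∧ e' ∉ F ∧ e' ∉ S ∧ D.Inv F (insert e' S)

variable {D}

lemma exists_legal (D : Design d V J L) (F S : Finset (Finset ℕ)) :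
    ∃ e' : Finset ℕ, e'.card = D.k ∧ e' ∉ F ∧ e' ∉ S := by
  obtain ⟨φ, hφ, hU⟩ := exists_fresh V ((F ∪ S).biUnion id)
  have hm : φ D.v0 ∈ D.im φ (.inr D.a) := (mem_im hφ).mpr (D.v0_mem _)
  refine ⟨D.im φ (.inr D.a), card_im hφ _, fun h => hU D.v0 ?_, fun h => hU D.v0 ?_⟩
  · exact mem_biUnion.mpr ⟨_, mem_union_left _ h, hm⟩
  · exact mem_biUnion.mpr ⟨_, mem_union_right _ h, hm⟩

lemma disj_ins {F S : Finset (Finset ℕ)} (h : Disjoint F S) {e : Finset ℕ} (he : e ∉ F) :
    Disjoint F (insert e S) := disjoint_insert_right.mpr ⟨he, h⟩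

lemma start_attack {F S : Finset (Finset ℕ)} (hd : Disjoint F S) {ψ : V → ℕ} (hψ : Injective ψ)
    (hB : ∀ j, D.im ψ (.inl j) ∈ S) {x y : L} (hxy : D.AB x y) (hT : D.Tau F S d)
    (hN : D.NN F ψ x y) : D.Good F S := by
  obtain ⟨n, hn⟩ : ∃ n : ℕ, n ∉ (F ∪ S).biUnion id ∪ univ.image ψ := Infinite.exists_notMem_finset _
  simp only [mem_union, mem_biUnion, id, not_or, not_exists, not_and, mem_image, mem_univ,
    true_and] at hn
  obtain ⟨hn1, hn2⟩ := hn
  set ψ' := update ψ D.z n with hψ'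
  have hz : ψ' D.z = n := by simp [hψ']
  have hne : ∀ v, v ≠ D.z → ψ' v = ψ v := fun v hv => by simp [hψ', hv]
  have hinj : Injective ψ' := by
    intro v w h
    by_cases hv : v = D.z <;> by_cases hw : w = D.z
    · rw [hv, hw]
    · rw [hv, hz, hne w hw] at h; exact absurd h.symm (hn2 w)
    · rw [hw, hz, hne v hv] at h; exact absurd h (hn2 v)
    · rw [hne v hv, hne w hw] at h; exact hψ h
  have himg : ∀ X : Finset V, D.z ∉ X → X.image ψ' = X.image ψ := fun X hX =>
    image_congr fun v hv => hne v fun h => hX (h ▸ hv)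
  have hmem : n ∈ D.im ψ' (.inr x) := by rw [← hz]; exact (mem_im hinj).mpr (D.z_L _)
  have h1 : D.im ψ' (.inr x) ∉ F := fun h => hn1 _ (Or.inl h) hmem
  have h2 : D.im ψ' (.inr x) ∉ S := fun h => hn1 _ (Or.inr h) hmem
  refine ⟨_, card_im hinj _, h1, h2, disj_ins hd h1, ?_⟩
  refine Or.inr (Or.inr (Or.inr (Or.inr (Or.inr (Or.inl
    ⟨ψ', x, y, hinj, fun j => ?_, hxy, mem_insert_self _ _, fun p hp => ?_, fun p hp hzp => ?_,
      hT.mono_right (subset_insert _ _), ?_⟩)))))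
  · apply mem_insert_of_mem
    rw [im, himg _ (D.z_B j)]; exact hB j
  · rw [hz]; exact hn1 p (Or.inl hp)
  · rcases mem_insert.mp hp with h | h
    · exact h
    · rw [hz] at hzp; exact absurd hzp (hn1 p (Or.inr h))
  · intro φ hφ hF hl
    rw [himg _ (z_not_lk _)] at hl ⊢
    exact hN φ hφ hF hl

lemma v0_lk (l : L) : D.v0 ∈ D.lk l := mem_erase.mpr ⟨D.v0_ne, D.v0_mem _⟩

lemma not_link_of_apex {e1 : Finset ℕ} {ψ φ : V → ℕ} (h1 : ∀ v, v ≠ D.z → ψ v ∉ e1)
    (h2 : φ D.v0 ∈ e1) (l y : L) : (D.lk l).image φ ≠ (D.lk y).image ψ := by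
  intro h
  have : φ D.v0 ∈ (D.lk y).image ψ := h ▸ mem_image_of_mem _ (v0_lk l)
  obtain ⟨v, hv, hv'⟩ := mem_image.mp this
  exact h1 v (ne_of_mem_erase hv) (hv' ▸ h2)

lemma NN_of_apex {F : Finset (Finset ℕ)} {e1 : Finset ℕ} {ψ : V → ℕ}
    (h1 : ∀ v, v ≠ D.z → ψ v ∉ e1)
    (h2 : ∀ φ : V → ℕ, Injective φ → (∀ j, D.im φ (.inl j) ∈ F) → φ D.v0 ∈ e1) (x y : L) :
    D.NN F ψ x y := by
  rintro φ hφ hF ⟨l, hl⟩
  exact absurd hl (not_link_of_apex h1 (h2 φ hφ hF) l y)

lemma AB_ab : D.AB D.a D.b := Or.inl ⟨rfl, rfl⟩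
lemma AB_ba : D.AB D.b D.a := Or.inr ⟨rfl, rfl⟩

/-- at most one index has a given image -/
lemma card_filter_eq_le {φ : V → ℕ} (h : Injective φ) (e : Finset ℕ) :
    (univ.filter fun j : J => D.im φ (.inl j) = e).card ≤ 1 := by
  rw [card_le_one]
  intro x hx y hy
  simp only [mem_filter, mem_univ, true_and] at hx hy
  exact Sum.inl_injective (im_inj h (hx.trans hy.symm))

lemma apex_of_insert {φ φ' : V → ℕ} (h : Injective φ) (h' : Injective φ') (e : Finset ℕ)
    (hc : ∀ j, D.im φ' (.inl j) = e ∨ ∃ x, D.im φ' (.inl j) = D.im φ x) : φ' D.v0 = φ D.v0 := by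
  apply apex_eq h h'
  have h1 := card_filter_eq_le (D := D) h' e
  have h2 : (univ : Finset J) ⊆ (univ.filter fun j => ∃ x, D.im φ' (.inl j) = D.im φ x) ∪
      (univ.filter fun j : J => D.im φ' (.inl j) = e) := by
    intro j _
    simp only [mem_union, mem_filter, mem_univ, true_and]
    exact (hc j).symm
  have := (card_le_card h2).trans (card_union_le _ _)
  rw [card_univ] at this
  omega

lemma step_slow {F S : Finset (Finset ℕ)} (hd : Disjoint F S) (h : D.Slow F S) {e : Finset ℕ}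
    (heS : e ∉ S) : ¬ D.HasCopy (insert e F) ∧ D.Good (insert e F) S := by
  obtain ⟨e1, ψ, ⟨h1, hψ, h2, hB⟩, hT, φ, hφ, hF⟩ := h
  have hd' : Disjoint (insert e F) S := disjoint_insert_left.mpr ⟨heS, hd⟩
  have hT' := hT.insert_left e
  refine ⟨hT'.no_copy (by have := D.hd; omega) hd', start_attack hd' hψ hB AB_ab hT' ?_⟩
  apply NN_of_apex h2
  intro φ' hφ' hF'
  rw [apex_of_insert hφ hφ' e]
  · obtain ⟨x, rfl⟩ := hF e1 h1
    exact (mem_im hφ).mpr (D.v0_mem _)
  · intro j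
    rcases mem_insert.mp (hF' j) with h | h
    · exact Or.inl h
    · exact Or.inr (hF _ h)

lemma race_done {S : Finset (Finset ℕ)} {ψ : V → ℕ} {T : Finset (Fin (2 * d))} (hψ : Injective ψ)
    (hB : ∀ j, D.im ψ (.inl j) ∈ S) (ha : D.im ψ (.inr D.a) ∈ S) (hb : D.im ψ (.inr D.b) ∈ S)
    (hT : ∀ t ∈ T, (D.c t).image ψ ∈ S) (hc : d ≤ T.card + 2) : D.HasCopy S := by
  obtain ⟨σ, hσ, h1, h2, h3, h4⟩ := D.race T hc
  refine ⟨ψ ∘ σ, hψ.comp hσ, ?_⟩
  rintro (j | l)
  · rw [im, ← image_image, h1]; exact hB j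
  · rw [im, ← image_image]
    by_cases hla : l = D.a
    · rw [hla, h2]; exact ha
    by_cases hlb : l = D.b
    · rw [hlb, h3]; exact hb
    obtain ⟨t, ht, h⟩ := h4 l hla hlb
    rw [h]; exact hT t ht

lemma good_of_copy {F S : Finset (Finset ℕ)} (hd : Disjoint F S) (h : D.HasCopy S) :
    D.Good F S := by
  obtain ⟨e', h1, h2, h3⟩ := D.exists_legal F S
  obtain ⟨φ, hφ, h⟩ := h
  exact ⟨e', h1, h2, h3, disj_ins hd h2, Or.inl ⟨φ, hφ, fun x => mem_insert_of_mem (h x)⟩⟩

lemma free_insert {ψ : V → ℕ} (hψ : Injective ψ) (P : Fin (2 * d) → Prop) [DecidablePred P]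
    (e : Finset ℕ) : (univ.filter P).card ≤
      (univ.filter fun t => P t ∧ (D.c t).image ψ ≠ e).card + 1 := by
  have h1 : (univ.filter fun t => (D.c t).image ψ = e).card ≤ 1 := by
    rw [card_le_one]
    intro x hx y hy
    simp only [mem_filter, mem_univ, true_and] at hx hy
    exact D.c_inj (image_injective hψ (hx.trans hy.symm))
  have h2 : univ.filter P ⊆ (univ.filter fun t => P t ∧ (D.c t).image ψ ≠ e) ∪
      (univ.filter fun t => (D.c t).image ψ = e) := by
    intro t ht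
    simp only [mem_union, mem_filter, mem_univ, true_and] at ht ⊢
    tauto
  have := (card_le_card h2).trans (card_union_le _ _)
  omega

lemma step_race {F S : Finset (Finset ℕ)} (hd : Disjoint F S) (h : D.Race F S) {e : Finset ℕ}
    (heS : e ∉ S) : ¬ (D.HasCopy (insert e F) ∧ ¬ D.HasCopy S) ∧ D.Good (insert e F) S := by
  obtain ⟨ψ, r, T, hψ, hB, ha, hb, hT, hc, hfree, hτ⟩ := h
  have hd' : Disjoint (insert e F) S := disjoint_insert_left.mpr ⟨heS, hd⟩
  rcases r with _ | r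
  · have := race_done hψ hB ha hb hT (by omega)
    exact ⟨fun h => h.2 this, good_of_copy hd' this⟩
  have hτ' := hτ.insert_left e
  refine ⟨fun h => hτ'.no_copy (by omega) hd' h.1, ?_⟩
  have h1 := free_insert (D := D) hψ (fun t => (D.c t).image ψ ∉ F ∧ (D.c t).image ψ ∉ S) e
  obtain ⟨t, ht⟩ : (univ.filter fun t => ((D.c t).image ψ ∉ F ∧ (D.c t).image ψ ∉ S) ∧
      (D.c t).image ψ ≠ e).Nonempty := card_pos.mp (by omega)
  simp only [mem_filter, mem_univ, true_and] at ht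
  have h2 := free_insert (D := D) hψ (fun t => ((D.c t).image ψ ∉ F ∧ (D.c t).image ψ ∉ S) ∧
      (D.c t).image ψ ≠ e) ((D.c t).image ψ)
  have hnF : (D.c t).image ψ ∉ insert e F := by simp [ht.1.1, ht.2]
  have htT : t ∉ T := fun h => ht.1.2 (hT t h)
  refine ⟨(D.c t).image ψ, by rw [card_image_of_injective _ hψ, D.c_card], hnF, ht.1.2,
    disj_ins hd' hnF, ?_⟩
  refine Or.inr (Or.inr (Or.inr (Or.inr (Or.inr (Or.inr
    ⟨ψ, r, insert t T, hψ, fun j => mem_insert_of_mem (hB j), mem_insert_of_mem ha,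
      mem_insert_of_mem hb, ?_, by rw [card_insert_of_notMem htT]; omega, ?_,
      hτ'.mono_right (subset_insert _ _)⟩)))))
  · intro s hs
    rcases mem_insert.mp hs with rfl | hs
    · exact mem_insert_self _ _
    · exact mem_insert_of_mem (hT s hs)
  · refine le_trans (by omega) (card_le_card (s := univ.filter fun s =>
      (((D.c s).image ψ ∉ F ∧ (D.c s).image ψ ∉ S) ∧ (D.c s).image ψ ≠ e) ∧
        (D.c s).image ψ ≠ (D.c t).image ψ) ?_)
    intro s hs
    simp only [mem_filter, mem_univ, true_and, mem_insert, not_or] at hs ⊢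
    tauto

/-- a vertex other than `z` whose image lies in at most one edge of `F` forces many misses -/
lemma miss_of_low {φ : V → ℕ} (hφ : Injective φ) {F : Finset (Finset ℕ)} {v : V} (hv : v ≠ D.z)
    {p : Finset ℕ} (h : ∀ p' ∈ F, φ v ∈ p' → p' = p) : d + 1 ≤ D.miss φ F := by
  have h1 := D.deg v hv
  have h2 := card_filter_eq_le (D := D) hφ p
  have h3 : (univ.filter fun j => v ∈ D.E (.inl j)) ⊆
      (univ.filter fun j : J => D.im φ (.inl j) ∉ F) ∪
        (univ.filter fun j : J => D.im φ (.inl j) = p) := by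
    intro j hj
    simp only [mem_union, mem_filter, mem_univ, true_and] at hj ⊢
    by_cases hF : D.im φ (.inl j) ∈ F
    · exact Or.inr (h _ hF ((mem_im hφ).mpr hj))
    · exact Or.inl hF
  have h4 := (card_le_card h3).trans (card_union_le _ _)
  have h5 : (univ.filter fun j : J => D.im φ (.inl j) ∉ F).card ≤ D.miss φ F := by
    apply card_le_card_of_injOn Sum.inl
    · intro j hj; simpa using hj
    · exact Sum.inl_injective.injOn
  omega

lemma miss_split (φ : V → ℕ) (F : Finset (Finset ℕ)) :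
    D.miss φ F = (univ.filter fun j : J => D.im φ (.inl j) ∉ F).card +
      (univ.filter fun l : L => D.im φ (.inr l) ∉ F).card := by
  rw [miss, card_filter, card_filter, card_filter, Fintype.sum_sum_type]

lemma link_miss {φ : V → ℕ} (hφ : Injective φ) {F : Finset (Finset ℕ)} {p : Finset ℕ}
    (h : ∀ p' ∈ F, φ D.z ∈ p' → p' = p) :
    d ≤ (univ.filter fun l : L => D.im φ (.inr l) ∉ F).card + 1 := by
  have h1 : (univ.filter fun l : L => D.im φ (.inr l) ∈ F).card ≤ 1 := by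
    rw [card_le_one]
    intro x hx y hy
    simp only [mem_filter, mem_univ, true_and] at hx hy
    have hx' := h _ hx ((mem_im hφ).mpr (D.z_L _))
    have hy' := h _ hy ((mem_im hφ).mpr (D.z_L _))
    exact Sum.inr_injective (im_inj hφ (hx'.trans hy'.symm))
  have h2 := card_filter_add_card_filter_not (s := (univ : Finset L))
    (fun l : L => D.im φ (.inr l) ∈ F)
  rw [card_univ, D.hL] at h2
  omega

lemma AB.ne {x y : L} (h : D.AB x y) : x ≠ y := by
  rcases h with ⟨rfl, rfl⟩ | ⟨rfl, rfl⟩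
  · exact D.hab
  · exact D.hab.symm

lemma step_attack {F S : Finset (Finset ℕ)} (hd : Disjoint F S) (h : D.Attack F S)
    {e : Finset ℕ} (heS : e ∉ S) : ¬ D.HasCopy (insert e F) ∧ D.Good (insert e F) S := by
  obtain ⟨ψ, x, y, hψ, hB, hxy, hx, hzF, hzS, hτ, hN⟩ := h
  have hd' : Disjoint (insert e F) S := disjoint_insert_left.mpr ⟨heS, hd⟩
  have h3 := D.hd
  have hτ' : D.Tau (insert e F) S (d - 1) := by
    apply Tau.insert_left
    rwa [Nat.sub_add_cancel (by omega)]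
  refine ⟨hτ'.no_copy (by omega) hd', ?_⟩
  have hzy : ψ D.z ∈ D.im ψ (.inr y) := (mem_im hψ).mpr (D.z_L _)
  by_cases he : e = D.im ψ (.inr y)
  · have hlow : ∀ p' ∈ insert e F, ψ D.z ∈ p' → p' = e := by
      intro p' hp' hz
      rcases mem_insert.mp hp' with h | h
      · exact h
      · exact absurd hz (hzF p' h)
    apply start_attack hd' hψ hB hxy
    · intro φ hφ hφS
      by_contra hlt
      push Not at hlt
      have hex : ∃ x0, D.im φ x0 = e := by
        by_contra hne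
        push Not at hne
        have h1 := hτ φ hφ hφS
        have h2 : D.miss φ (insert e F) = D.miss φ F := by
          unfold miss
          congr 1
          ext x0
          simp [hne x0]
        omega
      obtain ⟨x0, hx0⟩ := hex
      have h4 : ψ D.z ∈ D.im φ x0 := by rw [hx0, he]; exact hzy
      obtain ⟨v, hv, hv'⟩ := mem_image.mp h4
      have hvz : v = D.z := by
        by_contra hne
        have := miss_of_low hφ hne (F := insert e F) (p := e) (by rw [hv']; exact hlow)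
        omega
      subst hvz
      obtain ⟨l, rfl⟩ : ∃ l, x0 = .inr l := by
        rcases x0 with j | l
        · exact absurd hv (D.z_B j)
        · exact ⟨l, rfl⟩
      have h5 := link_miss hφ (F := insert e F) (p := e) (by rw [hv']; exact hlow)
      have h6 := miss_split (D := D) φ (insert e F)
      have h7 : (univ.filter fun j : J => D.im φ (.inl j) ∉ insert e F).card = 0 := by omega
      have h8 : ∀ j, D.im φ (.inl j) ∈ F := by
        intro j
        have h9 : D.im φ (.inl j) ∈ insert e F := by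
          by_contra hn
          exact absurd h7 (card_ne_zero.mpr ⟨j, by simpa using hn⟩)
        rcases mem_insert.mp h9 with h | h
        · rw [← hx0] at h; exact absurd (im_inj hφ h) (by simp)
        · exact h
      obtain ⟨l', hl'⟩ := hN φ hφ h8 ⟨l, by
        rw [← im_link_erase hφ, ← im_link_erase hψ, hx0, he, hv']⟩
      apply hφS (.inr l')
      rw [im_link, hl', hv', ← im_link]
      exact hx
    · intro φ hφ hF
      apply hN φ hφ
      intro j
      rcases mem_insert.mp (hF j) with h | h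
      · exfalso
        have h4 : ψ D.z ∈ D.im φ (.inl j) := by rw [h, he]; exact hzy
        obtain ⟨v, hv, hv'⟩ := mem_image.mp h4
        have hvz : v ≠ D.z := fun h => D.z_B j (h ▸ hv)
        have h5 := D.deg v hvz
        have h6 := card_filter_eq_le (D := D) hφ e
        have h7 : (univ.filter fun j => v ∈ D.E (.inl j)) ⊆
            (univ.filter fun j : J => D.im φ (.inl j) = e) := by
          intro i hi
          simp only [mem_filter, mem_univ, true_and] at hi ⊢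
          exact hlow _ (hF i) (by rw [← hv']; exact (mem_im hφ).mpr hi)
        have := card_le_card h7
        omega
      · exact h
  · have h1 : D.im ψ (.inr y) ∉ insert e F := by
      simp only [mem_insert, not_or]
      exact ⟨fun h => he h.symm, fun h => hzF _ h hzy⟩
    have h2 : D.im ψ (.inr y) ∉ S := fun h =>
      hxy.ne (Sum.inr_injective (im_inj hψ (hzS _ h hzy))).symm
    refine ⟨_, card_im hψ _, h1, h2, disj_ins hd' h1, ?_⟩
    have hab : D.im ψ (.inr D.a) ∈ insert (D.im ψ (.inr y)) S ∧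
        D.im ψ (.inr D.b) ∈ insert (D.im ψ (.inr y)) S := by
      rcases hxy with ⟨rfl, rfl⟩ | ⟨rfl, rfl⟩
      · exact ⟨mem_insert_of_mem hx, mem_insert_self _ _⟩
      · exact ⟨mem_insert_self _ _, mem_insert_of_mem hx⟩
    refine Or.inr (Or.inr (Or.inr (Or.inr (Or.inr (Or.inr
      ⟨ψ, d - 2, ∅, hψ, fun j => mem_insert_of_mem (hB j), hab.1, hab.2, by simp,
        by simp; omega, ?_, ?_⟩)))))
    · have h4 := free_insert (D := D) hψ (fun _ => True) e
      simp only [filter_true, card_univ, Fintype.card_fin, true_and] at h4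
      refine le_trans (by omega) (card_le_card (s := univ.filter fun s =>
        (D.c s).image ψ ≠ e) ?_)
      intro s hs
      have hzs : ψ D.z ∈ (D.c s).image ψ := mem_image_of_mem _ (D.c_z s)
      have hc : ∀ l, (l = D.a ∨ l = D.b) → (D.c s).image ψ ≠ D.im ψ (.inr l) := by
        rintro l (rfl | rfl) h
        · exact D.c_a s (image_injective hψ h)
        · exact D.c_b s (image_injective hψ h)
      simp only [mem_filter, mem_univ, true_and, mem_insert, not_or] at hs ⊢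
      refine ⟨⟨hs, fun h => hzF _ h hzs⟩, hc y ?_, fun h => hc x ?_ (hzS _ h hzs)⟩
      · rcases hxy with h | h <;> simp [h.2]
      · rcases hxy with h | h <;> simp [h.1]
    · have : d - 2 + 1 = d - 1 := by omega
      rw [this]
      exact hτ'.mono_right (subset_insert _ _)

end Design

end Pool.Agent.H250Z.SR
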