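import Pool.Agent.H250Z.SR.Step

set_option autoImplicit false
set_option linter.unusedSectionVars false

namespace Pool.Agent.H250Z.SR

open Finset Function

variable {d : ℕ} {V J L : Type} [Fintype V] [DecidableEq V] [Fintype J] [DecidableEq J]
    [Fintype L] [DecidableEq L]

namespace Design

variable {D : Design d V J L}

lemma vert_image (D : Design d V J L) {φ : V → ℕ} {v : V} (hv : v ≠ D.z) :
    ∃ j, φ v ∈ D.im φ (.inl j) := by
  obtain ⟨j, hj⟩ := exists_B hv
  exact ⟨j, mem_image_of_mem _ hj⟩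

lemma Same.z_not {φ φp : V → ℕ} (hp : Injective φp) (hs : D.Same φ φp) {v : V} (hv : v ≠ D.z) :
    φ v ≠ φp D.z := by
  obtain ⟨j, hj⟩ := D.vert_image (φ := φ) hv
  rw [← hs j] at hj
  intro h
  rw [h, mem_im hp] at hj
  exact D.z_B j hj

/-- analysis of copies near a position in which the attacker owns a base -/
lemma hasB_analysis {F S : Finset (Finset ℕ)} {φ : V → ℕ} (hφ : Injective φ)
    (hP : ∀ p ∈ F, (∃ j, p = D.im φ (.inl j)) ∨ ∃ φp : V → ℕ, Injective φp ∧ D.Same φ φp ∧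
      (∃ l, p = D.im φp (.inr l)) ∧ (∃ y, (y = D.a ∨ y = D.b) ∧ D.im φp (.inr y) ∈ S) ∧
      ∀ p' ∈ F, φp D.z ∈ p' → p' = p)
    {φ' : V → ℕ} (hφ' : Injective φ') (hS : ∀ x, D.im φ' x ∉ S) (hm : D.miss φ' F ≤ d) :
    D.Same φ φ' ∧ ∀ p ∈ F, φ' D.z ∉ p := by
  -- an edge of the copy in `F` of pendant type is a link edge at `φ' z`
  have key : ∀ x, ∀ φp : V → ℕ, Injective φp → (∃ l, D.im φ' x = D.im φp (.inr l)) →
      (∀ p' ∈ F, φp D.z ∈ p' → p' = D.im φ' x) → φ' D.z = φp D.z := by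
    rintro x φp hp ⟨l, hl⟩ hu
    have h1 : φp D.z ∈ D.im φ' x := by rw [hl]; exact (mem_im hp).mpr (D.z_L _)
    obtain ⟨v, -, hv⟩ := mem_image.mp h1
    by_contra hne
    have hvz : v ≠ D.z := fun h => hne (by rw [← hv, h])
    have := miss_of_low hφ' hvz (F := F) (p := D.im φ' x) (by rw [hv]; exact hu)
    omega
  have hpres := present_add_miss (D := D) φ' F
  have hsame : D.Same φ φ' := by
    by_cases hex : ∃ x, D.im φ' x ∈ F ∧ ¬ ∃ j, D.im φ' x = D.im φ (.inl j)
    · obtain ⟨x0, hx0, hn⟩ := hex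
      obtain ⟨φp, hp, hs, hl, -, hu⟩ := (hP _ hx0).resolve_left hn
      have hz := key x0 φp hp hl hu
      have h1 : D.Same φp φ' := by
        apply D.rigid φp φ' hp hφ'
        refine le_trans (by omega) (card_le_card (s := univ.filter fun x => D.im φ' x ∈ F) ?_)
        intro x hx
        simp only [mem_filter, mem_univ, true_and] at hx ⊢
        rcases hP _ hx with ⟨j, hj⟩ | ⟨φq, hq, -, hl', -, hu'⟩
        · exact ⟨.inl j, hj.trans (hs j).symm⟩
        · have hz' := key x φq hq hl' hu'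
          obtain ⟨l, hl⟩ := hl
          obtain ⟨l', hl'⟩ := hl'
          refine ⟨.inr l, ?_⟩
          have : D.im φ' x = D.im φ' x0 := by
            apply hu _ hx
            rw [← hz, hz', hl']
            exact (mem_im hq).mpr (D.z_L _)
          exact this.trans hl
      exact fun j => (h1 j).trans (hs j)
    · push Not at hex
      apply D.rigid φ φ' hφ hφ'
      refine le_trans (by omega) (card_le_card (s := univ.filter fun x => D.im φ' x ∈ F) ?_)
      intro x hx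
      simp only [mem_filter, mem_univ, true_and] at hx ⊢
      obtain ⟨j, hj⟩ := hex x hx
      exact ⟨.inl j, hj⟩
  refine ⟨hsame, fun p hp hz => ?_⟩
  rcases hP p hp with ⟨j, rfl⟩ | ⟨φp, hpi, hs, ⟨l, rfl⟩, ⟨y, hy, hyS⟩, -⟩
  · rw [← hsame j, mem_im hφ'] at hz
    exact D.z_B j hz
  · obtain ⟨v, -, hv⟩ := mem_image.mp hz
    have hs' : D.Same φp φ' := fun j => (hsame j).trans (hs j).symm
    have hvz : v = D.z := by
      by_contra hne
      exact hs'.z_not hφ' hne hv
    subst hvz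
    apply hS (.inr y)
    rw [im_link, lk_ab_image hpi hφ' hs' hy, ← hv, ← im_link]
    exact hyS

lemma exists_other (l : L) : ∃ y, (y = D.a ∨ y = D.b) ∧ y ≠ l := by
  by_cases h : l = D.a
  · exact ⟨D.b, Or.inr rfl, h ▸ D.hab.symm⟩
  · exact ⟨D.a, Or.inl rfl, Ne.symm h⟩

lemma Base.mono {F S F' S' : Finset (Finset ℕ)} {e1 : Finset ℕ} {ψ : V → ℕ}
    (h : D.Base F S e1 ψ) (hF : F ⊆ F') (hS : S ⊆ S') : D.Base F' S' e1 ψ :=
  ⟨hF h.1, h.2.1, h.2.2.1, fun j => hS (h.2.2.2 j)⟩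

lemma step_hasB {F S : Finset (Finset ℕ)} (hd : Disjoint F S) (h : D.HasB F S)
    {e : Finset ℕ} (heS : e ∉ S) : ¬ D.HasCopy (insert e F) ∧ D.Good (insert e F) S := by
  obtain ⟨e1, ψ, hbase, φ, hφ, hB, hP⟩ := h
  have hd' : Disjoint (insert e F) S := disjoint_insert_left.mpr ⟨heS, hd⟩
  have h3 := D.hd
  have hall : ∀ φ' : V → ℕ, Injective φ' → (∀ p ∈ F, φ' D.z ∉ p) →
      ∀ l, D.im φ' (.inr l) ∉ F := fun φ' hφ' hz l h =>
    hz _ h ((mem_im hφ').mpr (D.z_L _))
  constructor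
  · rintro ⟨φ', hφ', hF⟩
    have hS : ∀ x, D.im φ' x ∉ S := fun x hx => disjoint_left.mp hd' (hF x) hx
    have h0 : D.miss φ' (insert e F) = 0 := by simp [miss, -mem_insert, hF]
    have h1 := miss_insert (D := D) hφ' e F
    obtain ⟨-, hz⟩ := hasB_analysis hφ hP hφ' hS (by omega)
    have ha := (mem_insert.mp (hF (.inr D.a))).resolve_right (hall φ' hφ' hz _)
    have hb := (mem_insert.mp (hF (.inr D.b))).resolve_right (hall φ' hφ' hz _)
    exact D.hab (Sum.inr_injective (im_inj hφ' (ha.trans hb.symm)))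
  by_cases hτ : D.Tau (insert e F) S d
  · apply start_attack hd' hbase.2.1 hbase.2.2.2 AB_ab hτ
    apply NN_of_apex hbase.2.2.1
    intro φ' hφ' hF'
    rw [apex_of_insert hφ hφ' e]
    · rcases hP e1 hbase.1 with ⟨j, rfl⟩ | ⟨φp, hp, hs, ⟨l, rfl⟩, -, -⟩
      · exact (mem_im hφ).mpr (D.v0_mem _)
      · rw [← hs.apex_eq hφ hp]; exact (mem_im hp).mpr (D.v0_mem _)
    · intro j
      rcases mem_insert.mp (hF' j) with h | h
      · exact Or.inl h
      rcases hP _ h with ⟨i, hi⟩ | ⟨φp, hp, hs, ⟨l, hl⟩, -, hu⟩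
      · exact Or.inr ⟨_, hi⟩
      exfalso
      have h4 : φp D.z ∈ D.im φ' (.inl j) := by rw [hl]; exact (mem_im hp).mpr (D.z_L _)
      obtain ⟨v, hv, hv'⟩ := mem_image.mp h4
      have hvz : v ≠ D.z := fun h => D.z_B j (h ▸ hv)
      have h5 := D.deg v hvz
      have h6 := card_filter_eq_le (D := D) hφ' e
      have h6' := card_filter_eq_le (D := D) hφ' (D.im φ' (.inl j))
      have h7 : (univ.filter fun j => v ∈ D.E (.inl j)) ⊆
          (univ.filter fun j : J => D.im φ' (.inl j) = e) ∪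
            (univ.filter fun i : J => D.im φ' (.inl i) = D.im φ' (.inl j)) := by
        intro i hi
        simp only [mem_union, mem_filter, mem_univ, true_and] at hi ⊢
        rcases mem_insert.mp (hF' i) with h | h
        · exact Or.inl h
        · exact Or.inr (hu _ h (by rw [← hv']; exact (mem_im hφ').mpr hi))
      have := (card_le_card h7).trans (card_union_le _ _)
      omega
  · unfold Tau at hτ
    push Not at hτ
    obtain ⟨φ', hφ', hS, hlt⟩ := hτ
    have h1 := miss_insert (D := D) hφ' e F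
    obtain ⟨hs, hz⟩ := hasB_analysis hφ hP hφ' hS (by omega)
    have hex : ∃ l, D.im φ' (.inr l) = e := by
      by_contra hne
      push Not at hne
      have h6 := miss_split (D := D) φ' (insert e F)
      have h7 : (univ.filter fun l : L => D.im φ' (.inr l) ∉ insert e F) = univ := by
        ext l; simp [hne l, hall φ' hφ' hz l]
      rw [h7, card_univ, D.hL] at h6
      omega
    obtain ⟨l, hl⟩ := hex
    obtain ⟨y, hy, hyl⟩ := exists_other (D := D) l
    have hn : D.im φ' (.inr y) ∉ insert e F := by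
      simp only [mem_insert, not_or]
      exact ⟨fun h => hyl (Sum.inr_injective (im_inj hφ' (h.trans hl.symm))), hall φ' hφ' hz y⟩
    refine ⟨_, card_im hφ' _, hn, hS _, disj_ins hd' hn, ?_⟩
    refine Or.inr (Or.inr (Or.inr (Or.inl ⟨e1, ψ,
      hbase.mono (subset_insert _ _) (subset_insert _ _), φ, hφ,
      fun j => mem_insert_of_mem (hB j), ?_⟩)))
    intro p hp
    rcases mem_insert.mp hp with rfl | hp
    · refine Or.inr ⟨φ', hφ', hs, ⟨l, hl.symm⟩, ⟨y, hy, mem_insert_self _ _⟩, ?_⟩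
      intro p' hp' hz'
      rcases mem_insert.mp hp' with h | h
      · exact h
      · exact absurd hz' (hz _ h)
    rcases hP p hp with h | ⟨φp, hpi, hsp, ⟨l', hl'⟩, ⟨y', hy', hyS⟩, hu⟩
    · exact Or.inl h
    refine Or.inr ⟨φp, hpi, hsp, ⟨l', hl'⟩, ⟨y', hy', mem_insert_of_mem hyS⟩, ?_⟩
    intro p' hp' hz'
    rcases mem_insert.mp hp' with h | h
    · exfalso
      rw [h, ← hl] at hz'
      obtain ⟨v, -, hv⟩ := mem_image.mp hz'
      have hs' : D.Same φ' φp := fun j => (hsp j).trans (hs j).symm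
      by_cases hvz : v = D.z
      · apply hz p hp
        rw [← hvz, hv, hl']
        exact (mem_im hpi).mpr (D.z_L _)
      · exact hs'.z_not hpi hvz hv
    · exact hu _ h hz'

lemma exists_NN {F : Finset (Finset ℕ)} {e1 : Finset ℕ} {ψ : V → ℕ} (hψ : Injective ψ)
    (h1 : e1 ∈ F) (h2 : ∀ v, v ≠ D.z → ψ v ∉ e1) (hc : F.card ≤ Fintype.card J + 1) :
    ∃ x y, D.AB x y ∧ D.NN F ψ x y := by
  have hap : ∀ φ : V → ℕ, Injective φ → (∃ j, D.im φ (.inl j) = e1) → φ D.v0 ∈ e1 := by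
    rintro φ hφ ⟨j, rfl⟩
    exact (mem_im hφ).mpr (D.v0_mem _)
  by_cases hex : ∃ φ : V → ℕ, Injective φ ∧ (∀ j, D.im φ (.inl j) ∈ F) ∧
      ∀ j, D.im φ (.inl j) ≠ e1
  swap
  · push Not at hex
    exact ⟨_, _, AB_ab, NN_of_apex h2 (fun φ hφ hF => hap φ hφ (hex φ hφ hF)) _ _⟩
  obtain ⟨φ, hφ, hF, hne⟩ := hex
  have himg : (univ.image fun j => D.im φ (.inl j)) = F.erase e1 := by
    apply eq_of_subset_of_card_le
    · intro p hp
      obtain ⟨j, -, rfl⟩ := mem_image.mp hp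
      exact mem_erase.mpr ⟨hne j, hF j⟩
    · rw [card_erase_of_mem h1, card_image_of_injective _
        (fun i j h => Sum.inl_injective (im_inj hφ h)), card_univ]
      omega
  have hsame : ∀ φ' : V → ℕ, Injective φ' → (∀ j, D.im φ' (.inl j) ∈ F) → ∀ l y,
      (D.lk l).image φ' = (D.lk y).image ψ → D.Same φ φ' := by
    intro φ' hφ' hF' l y hl
    have hne' : ∀ j, D.im φ' (.inl j) ≠ e1 := fun j h =>
      not_link_of_apex h2 (hap φ' hφ' ⟨j, h⟩) l y hl
    apply D.rigid φ φ' hφ hφ'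
    rw [← card_univ]
    apply card_le_card_of_injOn Sum.inl
    · intro j _
      have : D.im φ' (.inl j) ∈ univ.image fun j => D.im φ (.inl j) := by
        rw [himg]; exact mem_erase.mpr ⟨hne' j, hF' j⟩
      obtain ⟨i, -, hi⟩ := mem_image.mp this
      simp only [coe_filter, mem_univ, true_and]
      exact ⟨.inl i, hi.symm⟩
    · exact Sum.inl_injective.injOn
  by_cases hA : ∃ w, (w = D.a ∨ w = D.b) ∧ (D.lk w).image φ = (D.lk D.a).image ψ
  · obtain ⟨w, hw, hw'⟩ := hA
    refine ⟨_, _, AB_ab, fun φ' hφ' hF' ⟨l, hl⟩ => ⟨w, ?_⟩⟩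
    rw [lk_ab_image hφ hφ' (hsame φ' hφ' hF' l _ hl) hw, hw']
  by_cases hB : ∃ w, (w = D.a ∨ w = D.b) ∧ (D.lk w).image φ = (D.lk D.b).image ψ
  · obtain ⟨w, hw, hw'⟩ := hB
    refine ⟨_, _, AB_ba, fun φ' hφ' hF' ⟨l, hl⟩ => ⟨w, ?_⟩⟩
    rw [lk_ab_image hφ hφ' (hsame φ' hφ' hF' l _ hl) hw, hw']
  have hsub : ∀ φ' : V → ℕ, Injective φ' → (∀ j, D.im φ' (.inl j) ∈ F) → ∀ l y,
      (¬ ∃ w, (w = D.a ∨ w = D.b) ∧ (D.lk w).image φ = (D.lk y).image ψ) →
      (D.lk l).image φ' = (D.lk y).image ψ → (D.lk y).image ψ ⊆ D.G.image φ := by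
    intro φ' hφ' hF' l y hn hl
    have hs := hsame φ' hφ' hF' l y hl
    have hl' : ¬ (l = D.a ∨ l = D.b) := fun h =>
      hn ⟨l, h, by rw [← lk_ab_image hφ hφ' hs h, hl]⟩
    push Not at hl'
    rw [← hl, ← sat_image hφ hφ' hs D.z_G D.satG]
    exact image_subset_image (D.sub_G l hl'.1 hl'.2)
  by_cases hb : ∃ φ' : V → ℕ, Injective φ' ∧ (∀ j, D.im φ' (.inl j) ∈ F) ∧
      ∃ l, (D.lk l).image φ' = (D.lk D.b).image ψ
  · obtain ⟨φ2, hφ2, hF2, l2, hl2⟩ := hb
    refine ⟨_, _, AB_ba, fun φ' hφ' hF' ⟨l, hl⟩ => ?_⟩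
    exfalso
    have h4 := hsub φ' hφ' hF' l _ hA hl
    have h5 := hsub φ2 hφ2 hF2 l2 _ hB hl2
    have h6 := card_le_card (union_subset h4 h5)
    rw [← image_union, card_image_of_injective _ hψ, card_image_of_injective _ hφ] at h6
    have h7 := D.card_ab
    have h8 := D.card_G
    unfold lk at h6
    omega
  · exact ⟨_, _, AB_ab, fun φ' hφ' hF' hl => absurd ⟨φ', hφ', hF', hl⟩ hb⟩

lemma step_built {F S : Finset (Finset ℕ)} (hd : Disjoint F S) {e1 : Finset ℕ} {ψ : V → ℕ}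
    (hbase : D.Base F S e1 ψ) (hc : F.card ≤ Fintype.card J + 1) : D.Good F S := by
  by_cases hτ : D.Tau F S d
  · obtain ⟨x, y, hxy, hN⟩ := exists_NN hbase.2.1 hbase.1 hbase.2.2.1 hc
    exact start_attack hd hbase.2.1 hbase.2.2.2 hxy hτ hN
  unfold Tau at hτ
  push Not at hτ
  obtain ⟨φ, hφ, hS, hlt⟩ := hτ
  have hpres := present_add_miss (D := D) φ F
  have himg : (univ.filter fun x => D.im φ x ∈ F).image (D.im φ) = F := by
    apply eq_of_subset_of_card_le
    · intro p hp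
      obtain ⟨x, hx, rfl⟩ := mem_image.mp hp
      simpa using hx
    · rw [card_image_of_injective _ (im_inj hφ)]; omega
  have hF : ∀ p ∈ F, ∃ x, p = D.im φ x := by
    intro p hp
    rw [← himg] at hp
    obtain ⟨x, -, rfl⟩ := mem_image.mp hp
    exact ⟨x, rfl⟩
  by_cases hB : ∃ j, D.im φ (.inl j) ∉ F
  · obtain ⟨j, hj⟩ := hB
    refine ⟨_, card_im hφ _, hj, hS _, disj_ins hd hj, ?_⟩
    refine Or.inr (Or.inr (Or.inr (Or.inr (Or.inl ⟨e1, ψ,
      hbase.mono subset_rfl (subset_insert _ _), ?_, φ, hφ, hF⟩))))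
    intro φ' hφ' hS'
    by_contra hlt'
    have hpres' := present_add_miss (D := D) φ' F
    have h1 : D.Same φ φ' := by
      apply D.rigid φ φ' hφ hφ'
      refine le_trans (by omega) (card_le_card (s := univ.filter fun x => D.im φ' x ∈ F) ?_)
      intro x hx
      simp only [mem_filter, mem_univ, true_and] at hx ⊢
      exact hF _ hx
    exact hS' (.inl j) (by rw [h1 j]; exact mem_insert_self _ _)
  · push Not at hB
    have h1 := present_le (D := D) hφ F
    have h2 : (univ.filter fun x => D.im φ x ∈ F).card = Fintype.card J +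
        (univ.filter fun l : L => D.im φ (.inr l) ∈ F).card := by
      rw [card_filter, Fintype.sum_sum_type, ← card_filter, ← card_filter]
      simp [hB]
    have h3 : (univ.filter fun l : L => D.im φ (.inr l) ∈ F).card = 1 := by omega
    obtain ⟨l, hl⟩ := card_eq_one.mp h3
    have hl' : ∀ l', D.im φ (.inr l') ∈ F → l' = l := by
      intro l' h
      have : l' ∈ univ.filter fun l : L => D.im φ (.inr l) ∈ F := by simpa using h
      rw [hl] at this
      simpa using this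
    obtain ⟨y, hy, hyl⟩ := exists_other (D := D) l
    have hn : D.im φ (.inr y) ∉ F := fun h => hyl (hl' y h)
    refine ⟨_, card_im hφ _, hn, hS _, disj_ins hd hn, ?_⟩
    refine Or.inr (Or.inr (Or.inr (Or.inl ⟨e1, ψ,
      hbase.mono subset_rfl (subset_insert _ _), φ, hφ, hB, ?_⟩)))
    intro p hp
    obtain ⟨x, rfl⟩ := hF p hp
    rcases x with j | l1
    · exact Or.inl ⟨j, rfl⟩
    refine Or.inr ⟨φ, hφ, fun _ => rfl, ⟨l1, rfl⟩, ⟨y, hy, mem_insert_self _ _⟩, ?_⟩
    intro p' hp' hz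
    obtain ⟨x', rfl⟩ := hF p' hp'
    rcases x' with j | l2
    · exact absurd ((mem_im hφ).mp hz) (D.z_B j)
    · rw [hl' l1 hp, hl' l2 hp']

lemma build_move {F S : Finset (Finset ℕ)} (hd : Disjoint F S) {e1 : Finset ℕ} (h1 : e1 ∈ F)
    {ψ : V → ℕ} (hψ : Injective ψ) (h2 : ∀ v, ψ v ∉ e1) {T : Finset J}
    (hT : ∀ j ∈ T, ∃ β, (D.opt j β).image ψ ∈ S) {j0 : J} (hj0 : j0 ∉ T) {β0 : Bool}
    (h0 : (D.opt j0 β0).image ψ ∉ F) (hF : ∀ j ∉ T, j ≠ j0 → ∀ β, (D.opt j β).image ψ ∉ F)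
    (hS : ∀ j ∉ T, ∀ β, (D.opt j β).image ψ ∉ S) (hc : F.card ≤ T.card + 1) : D.Good F S := by
  refine ⟨_, by rw [card_image_of_injective _ hψ, card_opt], h0, hS j0 hj0 β0, disj_ins hd h0, ?_⟩
  refine Or.inr (Or.inr (Or.inl ⟨e1, h1, ψ, hψ, h2, insert j0 T, ?_, ?_, ?_⟩))
  · intro j hj
    rcases mem_insert.mp hj with rfl | hj
    · exact ⟨β0, mem_insert_self _ _⟩
    · obtain ⟨β, hβ⟩ := hT j hj
      exact ⟨β, mem_insert_of_mem hβ⟩
  · intro j hj β
    simp only [mem_insert, not_or] at hj ⊢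
    exact ⟨hF j hj.2 hj.1 β, fun h => hj.1 (opt_inj (image_injective hψ h)).1, hS j hj.2 β⟩
  · rw [card_insert_of_notMem hj0]; exact hc

lemma no_copy_small {F : Finset (Finset ℕ)} (h : F.card ≤ Fintype.card J + 1) :
    ¬ D.HasCopy F := by
  rintro ⟨φ, hφ, hF⟩
  have h1 := present_le (D := D) hφ F
  have h2 := present_add_miss (D := D) φ F
  have h0 : D.miss φ F = 0 := by simp [miss, hF]
  have := D.hd
  omega

lemma step_build {F S : Finset (Finset ℕ)} (hd : Disjoint F S) (h : D.Build F S)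
    {e : Finset ℕ} (heS : e ∉ S) : ¬ D.HasCopy (insert e F) ∧ D.Good (insert e F) S := by
  obtain ⟨e1, h1, ψ, hψ, h2, T, hT, hT', hc⟩ := h
  have hd' : Disjoint (insert e F) S := disjoint_insert_left.mpr ⟨heS, hd⟩
  have hcT : T.card ≤ Fintype.card J := card_le_univ _
  have hci := card_insert_le e F
  refine ⟨no_copy_small (by omega), ?_⟩
  by_cases hex : ∃ j, j ∉ T
  · by_cases he : ∃ j ∉ T, ∃ β, (D.opt j β).image ψ = e
    · obtain ⟨j0, hj0, β, hβ⟩ := he
      apply build_move hd' (mem_insert_of_mem h1) hψ h2 hT hj0 (β0 := !β)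
      · simp only [mem_insert, not_or]
        refine ⟨fun h => ?_, (hT' j0 hj0 _).1⟩
        have := (opt_inj (image_injective hψ (h.trans hβ.symm))).2
        simp at this
      · intro j hj hne γ
        simp only [mem_insert, not_or]
        exact ⟨fun h => hne (opt_inj (image_injective hψ (h.trans hβ.symm))).1, (hT' j hj _).1⟩
      · exact fun j hj β => (hT' j hj β).2
      · omega
    · push Not at he
      obtain ⟨j0, hj0⟩ := hex
      apply build_move hd' (mem_insert_of_mem h1) hψ h2 hT hj0 (β0 := false)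
      · simp only [mem_insert, not_or]
        exact ⟨he j0 hj0 _, (hT' j0 hj0 _).1⟩
      · intro j hj hne γ
        simp only [mem_insert, not_or]
        exact ⟨he j hj _, (hT' j hj _).1⟩
      · exact fun j hj β => (hT' j hj β).2
      · omega
  · push Not at hex
    choose β hβ using fun j => hT j (hex j)
    obtain ⟨σ, hz, hσ⟩ := exists_perm (D := D) (univ.filter fun j => β j = true)
    apply step_built hd' (e1 := e1) (ψ := ψ ∘ σ) _ (by omega)
    refine ⟨mem_insert_of_mem h1, hψ.comp σ.injective, fun v _ => h2 _, fun j => ?_⟩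
    rw [im, ← image_image, hσ]
    simpa using hβ j

lemma step_init {S : Finset (Finset ℕ)} {e : Finset ℕ} (heS : e ∉ S) :
    ¬ D.HasCopy (insert e ∅) ∧ D.Good (insert e ∅) S := by
  refine ⟨no_copy_small (by simp), ?_⟩
  obtain ⟨ψ, hψ, hU⟩ := exists_fresh V ((insert e S).biUnion id)
  have hfree : ∀ j β, (D.opt j β).image ψ ∉ insert e S := by
    intro j β h
    obtain ⟨v, hv⟩ := v0_or (D := D) j β
    exact hU v (mem_biUnion.mpr ⟨_, h, mem_image_of_mem _ hv⟩)
  have hJ := card_J D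
  obtain ⟨j0⟩ : Nonempty J := Fintype.card_pos_iff.mp (by omega)
  apply build_move (T := ∅) (e1 := e) (ψ := ψ) (j0 := j0) (β0 := false) (by simpa using heS)
    (by simp) hψ
  · intro v hv
    exact hU v (mem_biUnion.mpr ⟨e, mem_insert_self _ _, hv⟩)
  · simp
  · simp
  · intro h; exact hfree j0 false (by simp at h; simp [h])
  · intro j _ _ β h; exact hfree j β (by simp at h; simp [h])
  · intro j _ β h; exact hfree j β (mem_insert_of_mem h)
  · simp

theorem step {F S : Finset (Finset ℕ)} (h : D.Inv F S) {e : Finset ℕ} (heS : e ∉ S) :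
    ¬ (D.HasCopy (insert e F) ∧ ¬ D.HasCopy S) ∧ D.Good (insert e F) S := by
  obtain ⟨hd, h⟩ := h
  have hd' : Disjoint (insert e F) S := disjoint_insert_left.mpr ⟨heS, hd⟩
  rcases h with h | rfl | h | h | h | h | h
  · exact ⟨fun h' => h'.2 h, good_of_copy hd' h⟩
  · exact ⟨fun h' => (step_init heS).1 h'.1, (step_init heS).2⟩
  · exact ⟨fun h' => (step_build hd h heS).1 h'.1, (step_build hd h heS).2⟩
  · exact ⟨fun h' => (step_hasB hd h heS).1 h'.1, (step_hasB hd h heS).2⟩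
  · exact ⟨fun h' => (step_slow hd h heS).1 h'.1, (step_slow hd h heS).2⟩
  · exact ⟨fun h' => (step_attack hd h heS).1 h'.1, (step_attack hd h heS).2⟩
  · exact step_race hd h heS

end Design

end Pool.Agent.H250Z.SR
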